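import Pool.Agent.Y123.ST.Main
import Pool.Agent.Y123.ST.Fc
import Pool.Agent.W2helper33.OQ.Lie

/-!
# Polynomials of bounded degree which vanish on a subtorsor
-/

set_option autoImplicit false
set_option linter.unusedSectionVars false

open Matrix MvPolynomial

noncomputable section

namespace Pool.Agent.W2helper33.BD

open Pool.Agent.TH127.PT Pool.Agent.TH119.MX Pool.Agent.TH119.DR Pool.Agent.Y123.ST Pool.Agent.W2helper33.OQ

variable {N : Type} [Fintype N] [DecidableEq N] {K : Subfield ℂ} {T : Set (Matrix N N ℂ)}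

/-- All relations of degree at most `d` over `K` between the entries of `c` hold for `y`. -/
def RelTo (K : Subfield ℂ) (d : ℕ) (c y : Matrix N N ℂ) : Prop :=
  ∀ p : MvPolynomial (N × N) ℂ, (∀ m, p.coeff m ∈ K) → p.totalDegree ≤ d → eval (fl c) p = 0 → eval (fl y) p = 0

/-- **Descent.** Complex polynomials of bounded degree which vanish on the subtorsor. -/
theorem van_desc (hT : IsSubtorsor K T) {d : ℕ} {c y : Matrix N N ℂ} (hc : c ∈ T) (hy : RelTo K d c y)
    {P : MvPolynomial (N × N) ℂ} (hP : Van T P) (hd : P.totalDegree ≤ d) : eval (fl y) P = 0 := by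
  classical
  let S := P.support
  let F : (S → ℂ) → MvPolynomial (N × N) ℂ := fun v => ∑ m : S, monomial (m : (N × N) →₀ ℕ) (v m)
  have Fadd : ∀ v w, F (v + w) = F v + F w := by
    intro v w
    simp only [F, Pi.add_apply, map_add, Finset.sum_add_distrib]
  have Fsmul : ∀ (a : ℂ) v, F (a • v) = a • F v := by
    intro a v
    simp only [F, Pi.smul_apply, Finset.smul_sum, smul_monomial]
  let W : Submodule ℂ (S → ℂ) :=
    { carrier := {v | Van T (F v)}
      zero_mem' := by
        intro x _
        have : F 0 = 0 := by simp [F]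
        rw [this, map_zero]
      add_mem' := by
        intro v w hv hw x hx
        rw [Fadd, map_add, hv x hx, hw x hx, add_zero]
      smul_mem' := by
        intro a v hv x hx
        rw [Fsmul, smul_eval, hv x hx, mul_zero] }
  have hW : DefOver K W := by
    refine defOver_of_aut W fun σ hσ v hv => ?_
    have h1 := van_aut hT hσ hv
    have h2 : (F v).map (σ : ℂ →+* ℂ) = F (fun i => σ (v i)) := by
      simp only [F, map_sum, map_monomial]
      rfl
    rw [h2] at h1
    exact h1
  have hPF : F (fun m => P.coeff m) = P := by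
    simp only [F]
    rw [Finset.sum_coe_sort S (fun m => monomial m (P.coeff m))]
    exact P.support_sum_monomial_coeff
  have hmem : (fun m : S => P.coeff m) ∈ W := by
    show Van T (F _)
    rw [hPF]
    exact hP
  have hdeg : ∀ v, (F v).totalDegree ≤ d := by
    intro v
    refine (totalDegree_finsetSum _ _).trans (Finset.sup_le fun m _ => ?_)
    refine (totalDegree_monomial_le _ _).trans ?_
    exact (le_totalDegree m.2).trans hd
  have key : ∀ v ∈ Submodule.span ℂ {w : S → ℂ | w ∈ W ∧ ∀ a, w a ∈ K}, eval (fl y) (F v) = 0 := by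
    intro v hv
    induction hv using Submodule.span_induction with
    | mem w hw =>
      obtain ⟨hw1, hw2⟩ := hw
      have hcoef : ∀ m, (F w).coeff m ∈ K := by
        intro m
        simp only [F, coeff_sum, coeff_monomial]
        refine sum_mem fun i _ => ?_
        split_ifs
        · exact hw2 i
        · exact K.zero_mem
      exact hy _ hcoef (hdeg w) (hw1 c hc)
    | zero =>
      have : F 0 = 0 := by simp [F]
      rw [this, map_zero]
    | add v w _ _ hv hw => rw [Fadd, map_add, hv, hw, add_zero]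
    | smul a v _ hv => rw [Fsmul, smul_eval, hv, mul_zero]
  have h1 := key _ (hW hmem)
  rw [hPF] at h1
  exact h1

/-! ### Functionals -/

/-- The functional with the coefficients `ψ`. -/
def pr (ψ : N × N → ℂ) : Matrix N N ℂ →ₗ[ℂ] ℂ where
  toFun M := ∑ b, ψ b * M b.1 b.2
  map_add' x y := by simp only [Matrix.add_apply, mul_add, Finset.sum_add_distrib]
  map_smul' c x := by
    simp only [Matrix.smul_apply, smul_eq_mul, RingHom.id_apply, Finset.mul_sum]
    exact Finset.sum_congr rfl fun b _ => by ring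

theorem pr_apply (ψ : N × N → ℂ) (M : Matrix N N ℂ) : pr ψ M = ∑ b, ψ b * M b.1 b.2 := rfl

/-- Every functional is of this form. -/
theorem exists_pr (f : Matrix N N ℂ →ₗ[ℂ] ℂ) : ∃ ψ, pr ψ = f := by
  classical
  refine ⟨fun b => f (Matrix.single b.1 b.2 1), ?_⟩
  refine LinearMap.ext fun M => ?_
  conv_rhs => rw [Matrix.matrix_eq_sum_single M]
  rw [map_sum, pr_apply, Fintype.sum_prod_type]
  refine Finset.sum_congr rfl fun i _ => ?_
  rw [map_sum]
  refine Finset.sum_congr rfl fun j _ => ?_
  have h1 : Matrix.single i j (M i j) = M i j • Matrix.single i j (1 : ℂ) := by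
    rw [Matrix.smul_single, smul_eq_mul, mul_one]
  rw [h1, map_smul, smul_eq_mul, mul_comm]

/-- The functionals which vanish on a subspace. -/
def perp (L : Submodule ℂ (Matrix N N ℂ)) : Submodule ℂ (N × N → ℂ) where
  carrier := {ψ | ∀ w ∈ L, pr ψ w = 0}
  zero_mem' := by
    intro w _
    simp [pr_apply]
  add_mem' := by
    intro x y hx hy w hw
    have h1 := hx w hw
    have h2 := hy w hw
    rw [pr_apply] at h1 h2 ⊢
    simp only [Pi.add_apply, add_mul, Finset.sum_add_distrib]
    rw [h1, h2, add_zero]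
  smul_mem' := by
    intro a x hx w hw
    have h1 := hx w hw
    rw [pr_apply] at h1 ⊢
    simp only [Pi.smul_apply, smul_eq_mul, mul_assoc, ← Finset.mul_sum]
    rw [h1, mul_zero]

theorem mem_of_perp {L : Submodule ℂ (Matrix N N ℂ)} {M : Matrix N N ℂ} (h : ∀ ψ ∈ perp L, pr ψ M = 0) : M ∈ L := by
  by_contra hcon
  obtain ⟨f, hf1, hf2⟩ := Submodule.exists_le_ker_of_notMem hcon
  obtain ⟨ψ, rfl⟩ := exists_pr f
  exact hf1 (h ψ fun w hw => hf2 hw)

theorem pr_mul_smul (ψ : N × N → ℂ) (a : ℂ) (M : Matrix N N ℂ) : pr (a • ψ) M = a * pr ψ M := by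
  rw [pr_apply, pr_apply, Finset.mul_sum]
  exact Finset.sum_congr rfl fun b _ => by rw [Pi.smul_apply, smul_eq_mul, mul_assoc]

theorem pr_add (ψ φ : N × N → ℂ) (M : Matrix N N ℂ) : pr (ψ + φ) M = pr ψ M + pr φ M := by
  rw [pr_apply, pr_apply, pr_apply, ← Finset.sum_add_distrib]
  exact Finset.sum_congr rfl fun b _ => by rw [Pi.add_apply, add_mul]

/-! ### Matrices of polynomials -/

/-- The generic matrix. -/
def GX (N : Type) [Fintype N] [DecidableEq N] : Matrix N N (MvPolynomial (N × N) ℂ) := Matrix.of fun i j => X (i, j)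

/-- The degree of the adjugate of the generic matrix. -/
def D0 (N : Type) [Fintype N] [DecidableEq N] : ℕ :=
  Finset.univ.sup fun b : N × N => ((GX N).adjugate b.1 b.2).totalDegree

/-- The conjugates of `A`, times the determinant. -/
def PA (A : Matrix N N ℂ) : Matrix N N (MvPolynomial (N × N) ℂ) := GX N * A.map C * (GX N).adjugate

theorem map_GX (x : Matrix N N ℂ) : (GX N).map (eval (fl x)) = x := by
  ext i j
  simp [GX, fl]

theorem map_PA (A x : Matrix N N ℂ) : (PA A).map (eval (fl x)) = x * A * x.adjugate := by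
  unfold PA
  rw [Matrix.map_mul, Matrix.map_mul, map_GX]
  have h1 : (A.map C).map (eval (fl x)) = A := by
    ext i j
    simp
  have h2 : ((GX N).adjugate).map (eval (fl x)) = x.adjugate := by
    have h3 := RingHom.map_adjugate (eval (fl x)) (GX N)
    rw [RingHom.mapMatrix_apply, RingHom.mapMatrix_apply, map_GX] at h3
    exact h3
  rw [h1, h2]

theorem map_PA' (A x : Matrix N N ℂ) (hx : IsUnit x) : (PA A).map (eval (fl x)) = x.det • (x * A * x⁻¹) := by
  rw [map_PA]
  have h1 : x.adjugate = x.det • x⁻¹ := by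
    rw [Matrix.inv_def, smul_smul, Ring.mul_inverse_cancel _ ((Matrix.isUnit_iff_isUnit_det x).1 hx), one_smul]
  rw [h1, Matrix.mul_smul]

section deg

variable {σ m n l : Type} [Fintype m] [Fintype n] [DecidableEq n]

theorem deg_mul {a b : ℕ} {A : Matrix l m (MvPolynomial σ ℂ)} {B : Matrix m n (MvPolynomial σ ℂ)}
    (hA : ∀ i j, (A i j).totalDegree ≤ a) (hB : ∀ i j, (B i j).totalDegree ≤ b) (i : l) (j : n) :
    ((A * B) i j).totalDegree ≤ a + b := by
  rw [Matrix.mul_apply]
  refine (totalDegree_finsetSum _ _).trans (Finset.sup_le fun k _ => ?_)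
  exact (totalDegree_mul _ _).trans (Nat.add_le_add (hA i k) (hB k j))

theorem deg_pow {a : ℕ} {A : Matrix n n (MvPolynomial σ ℂ)} (hA : ∀ i j, (A i j).totalDegree ≤ a) (k : ℕ) (i j : n) :
    ((A ^ k) i j).totalDegree ≤ k * a := by
  induction k generalizing i j with
  | zero =>
    rw [pow_zero, Matrix.one_apply]
    split_ifs
    · rw [totalDegree_one]; exact Nat.zero_le _
    · rw [totalDegree_zero]; exact Nat.zero_le _
  | succ k ih =>
    rw [pow_succ]
    have h1 := deg_mul (a := k * a) (b := a) (A := A ^ k) (B := A) ih hA i j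
    rw [Nat.succ_mul]
    exact h1

end deg

theorem deg_PA (A : Matrix N N ℂ) (i j : N) : ((PA A) i j).totalDegree ≤ 1 + D0 N := by
  unfold PA
  have h1 : ∀ i j, ((GX N * A.map (C : ℂ → MvPolynomial (N × N) ℂ)) i j).totalDegree ≤ 1 + 0 := fun i j => by
    refine deg_mul (fun i j => ?_) (fun i j => ?_) i j
    · change (X (i, j) : MvPolynomial (N × N) ℂ).totalDegree ≤ 1
      rw [totalDegree_X]
    · rw [Matrix.map_apply, totalDegree_C]
  refine deg_mul h1 (fun i j => ?_) i j
  exact Finset.le_sup (f := fun b : N × N => ((GX N).adjugate b.1 b.2).totalDegree) (Finset.mem_univ (i, j))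

/-- A functional of the conjugates of `A`, times the determinant. -/
def cj (ψ : N × N → ℂ) (A : Matrix N N ℂ) : MvPolynomial (N × N) ℂ := ∑ b, C (ψ b) * PA A b.1 b.2

theorem eval_cj (ψ : N × N → ℂ) (A x : Matrix N N ℂ) (hx : IsUnit x) :
    eval (fl x) (cj ψ A) = x.det * pr ψ (x * A * x⁻¹) := by
  have h1 : ∀ i j, eval (fl x) (PA A i j) = x.det * (x * A * x⁻¹) i j := fun i j =>
    congrFun (congrFun (map_PA' A x hx) i) j
  unfold cj
  rw [map_sum, pr_apply, Finset.mul_sum]
  refine Finset.sum_congr rfl fun b _ => ?_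
  rw [map_mul, eval_C, h1]
  ring

theorem deg_cj (ψ : N × N → ℂ) (A : Matrix N N ℂ) : (cj ψ A).totalDegree ≤ 1 + D0 N := by
  refine (totalDegree_finsetSum _ _).trans (Finset.sup_le fun b _ => ?_)
  refine (totalDegree_mul _ _).trans ?_
  rw [totalDegree_C, zero_add]
  exact deg_PA A _ _

theorem cj_add (ψ φ : N × N → ℂ) (A : Matrix N N ℂ) : cj (ψ + φ) A = cj ψ A + cj φ A := by
  unfold cj
  rw [← Finset.sum_add_distrib]
  exact Finset.sum_congr rfl fun b _ => by rw [Pi.add_apply, map_add, add_mul]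

theorem cj_smul (a : ℂ) (ψ : N × N → ℂ) (A : Matrix N N ℂ) : cj (a • ψ) A = C a * cj ψ A := by
  unfold cj
  rw [Finset.mul_sum]
  exact Finset.sum_congr rfl fun b _ => by rw [Pi.smul_apply, smul_eq_mul, map_mul, mul_assoc]

theorem PA_add (A B : Matrix N N ℂ) : PA (A + B) = PA A + PA B := by
  unfold PA
  have h1 : (A + B).map (C : ℂ → MvPolynomial (N × N) ℂ) = A.map C + B.map C := by
    ext i j
    simp
  rw [h1, Matrix.mul_add, Matrix.add_mul]

theorem PA_smul (a : ℂ) (A : Matrix N N ℂ) : PA (a • A) = (C a : MvPolynomial (N × N) ℂ) • PA A := by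
  unfold PA
  have h1 : (a • A).map (C : ℂ → MvPolynomial (N × N) ℂ) = (C a : MvPolynomial (N × N) ℂ) • A.map C := by
    ext i j
    simp
  rw [h1, Matrix.mul_smul, Matrix.smul_mul]

theorem cj_add' (ψ : N × N → ℂ) (A B : Matrix N N ℂ) : cj ψ (A + B) = cj ψ A + cj ψ B := by
  unfold cj
  rw [← Finset.sum_add_distrib]
  exact Finset.sum_congr rfl fun b _ => by rw [PA_add, Matrix.add_apply, mul_add]

theorem cj_smul' (a : ℂ) (ψ : N × N → ℂ) (A : Matrix N N ℂ) : cj ψ (a • A) = C a * cj ψ A := by
  unfold cj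
  rw [Finset.mul_sum]
  exact Finset.sum_congr rfl fun b _ => by rw [PA_smul, Matrix.smul_apply, smul_eq_mul]; ring

theorem cj_zero (A : Matrix N N ℂ) : cj (0 : N × N → ℂ) A = 0 := by
  unfold cj
  exact Finset.sum_eq_zero fun b _ => by rw [Pi.zero_apply, map_zero, zero_mul]

theorem cj_zero' (ψ : N × N → ℂ) : cj ψ (0 : Matrix N N ℂ) = 0 := by
  have h1 := cj_smul' 0 ψ (0 : Matrix N N ℂ)
  rwa [smul_zero, map_zero, zero_mul] at h1

end Pool.Agent.W2helper33.BD

end
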