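import Pool.Agent.W2helper43.BD.MULT

/-!
Piece CMPE of project BD: the Brauer map of the idempotent `e`.
-/

set_option autoImplicit false

namespace Pool.Agent.W2helper43.BD

namespace CmpE

open Subgroup

variable {Λ V G Γ : Type} [CommRing Λ] [Group V] [Group G] [Group Γ]

theorem e_coeff [Finite V] (D : Dat Λ V G Γ) (v : V) : D.e.coeff (D.iV v) = D.c * D.θ v⁻¹ := by
  classical
  have := Fintype.ofFinite V
  rw [D.e_eq, MonoidAlgebra.coeff_sum, Finsupp.finsetSum_apply, Finset.sum_eq_single v]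
  · rw [MonoidAlgebra.coeff_single, Finsupp.single_eq_same]
  · intro w _ hw
    rw [MonoidAlgebra.coeff_single, Finsupp.single_apply, if_neg]
    exact fun h => hw (D.injV h)
  · intro h
    exact absurd (Finset.mem_univ v) h

theorem e_coeff_zero [Finite V] (D : Dat Λ V G Γ) (γ : Γ) (h : ∀ v, D.iV v ≠ γ) :
    D.e.coeff γ = 0 := by
  classical
  have := Fintype.ofFinite V
  rw [D.e_eq, MonoidAlgebra.coeff_sum, Finsupp.finsetSum_apply]
  refine Finset.sum_eq_zero fun v _ => ?_
  rw [MonoidAlgebra.coeff_single, Finsupp.single_apply, if_neg (h v)]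

theorem incl_coeff (N : Subgroup Γ) (x : MonoidAlgebra Λ N) (n : N) :
    (incl N x).coeff (n : Γ) = x.coeff n :=
  Finsupp.mapDomain_apply Subtype.val_injective _ _

theorem incl_coeff_zero (N : Subgroup Γ) (x : MonoidAlgebra Λ N) (γ : Γ) (h : γ ∉ N) :
    (incl N x).coeff γ = 0 :=
  Finsupp.mapDomain_of_notMem_range _ _ (fun ⟨n, hn⟩ => h (hn ▸ n.2))

theorem red_coeff [IsLocalRing Λ] (x : MonoidAlgebra Λ Γ) (γ : Γ) :
    (red x).coeff γ = IsLocalRing.residue Λ (x.coeff γ) :=
  rfl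

/-- Conjugation action of the subgroup on `V`. -/
@[reducible] noncomputable def act (D : Dat Λ V G Γ) (H : Subgroup G) : MulAction H V where
  smul h v := (D.normal (D.iG (h : G)) v).choose
  one_smul v := D.injV ((D.normal (D.iG ((1 : H) : G)) v).choose_spec.trans (by
    rw [OneMemClass.coe_one, map_one, one_mul, inv_one, mul_one]))
  mul_smul a b v := D.injV (by
    have h1 := (D.normal (D.iG ((a * b : H) : G)) v).choose_spec
    have h2 := (D.normal (D.iG (b : G)) v).choose_spec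
    have h3 := (D.normal (D.iG (a : G)) (D.normal (D.iG (b : G)) v).choose).choose_spec
    refine h1.trans (Eq.trans ?_ h3.symm)
    rw [h2, Subgroup.coe_mul, map_mul]
    group)

theorem act_spec (D : Dat Λ V G Γ) (H : Subgroup G) (h : H) (v : V) :
    D.iV (@HSMul.hSMul _ _ _ (@instHSMul _ _ (act D H).toSMul) h v) =
      D.iG h * D.iV v * (D.iG h)⁻¹ :=
  (D.normal (D.iG (h : G)) v).choose_spec

theorem card_mod [Finite V] {ℓ : ℕ} (hℓ : ℓ.Prime) (D : Dat Λ V G Γ) (H : Subgroup G)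
    (hH : IsPGroup ℓ H) :
    Nat.card V ≡ Nat.card ((centralizer ((H.map D.iG : Subgroup Γ) : Set Γ)).comap D.iV) [MOD ℓ] := by
  have : Fact ℓ.Prime := ⟨hℓ⟩
  have h := @IsPGroup.card_modEq_card_fixedPoints ℓ H _ hH _ V (act D H) _
  have h2 : Nat.card (@MulAction.fixedPoints H V _ (act D H)) =
      Nat.card ((centralizer ((H.map D.iG : Subgroup Γ) : Set Γ)).comap D.iV) := by
    refine Nat.card_congr (Equiv.subtypeEquivRight fun v => ?_)
    rw [mem_comap, mem_centralizer_iff]
    constructor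
    · rintro hv _ ⟨g, hg, rfl⟩
      have h3 := act_spec D H ⟨g, hg⟩ v
      rw [hv ⟨g, hg⟩, eq_mul_inv_iff_mul_eq] at h3
      exact h3.symm
    · intro hv a
      apply D.injV
      rw [act_spec, mul_inv_eq_iff_eq_mul]
      exact hv _ ⟨a, a.2, rfl⟩
  rw [h2] at h
  exact h

end CmpE

open CmpE in
theorem p_cmpe : P_CMPE := by
  intro ℓ hℓ Λ V G Γ _ _ _ _ _ _ _ _ _ D H hH D1 hD1
  classical
  have hcc : IsLocalRing.residue Λ D.c = IsLocalRing.residue Λ D1.c := by
    have h1 := congrArg (IsLocalRing.residue Λ) D.hc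
    have h2 := congrArg (IsLocalRing.residue Λ) D1.hc
    rw [map_mul, map_natCast, map_one] at h1 h2
    have h3 := card_mod hℓ D H hH
    rw [← CharP.natCast_eq_natCast (IsLocalRing.ResidueField Λ) ℓ] at h3
    rw [← h3] at h2
    have h4 : (Nat.card V : IsLocalRing.ResidueField Λ) ≠ 0 := by
      intro h0
      rw [h0, mul_zero] at h1
      exact zero_ne_one h1
    exact mul_right_cancel₀ h4 (h1.trans h2.symm)
  apply MonoidAlgebra.coeff_injective
  ext γ
  rw [br, coeff_cut, red_coeff]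
  by_cases hγ : γ ∈ Subgroup.centralizer ((H.map D.iG : Subgroup Γ) : Set Γ)
  · rw [if_pos hγ]
    have hn : γ ∈ Subgroup.normalizer ((H.map D.iG : Subgroup Γ) : Set Γ) :=
      Subgroup.centralizer_le_normalizer _ hγ
    have hr := incl_coeff (Subgroup.normalizer ((H.map D.iG : Subgroup Γ) : Set Γ)) (red D1.e)
      ⟨γ, hn⟩
    rw [show ((⟨γ, hn⟩ : Subgroup.normalizer ((H.map D.iG : Subgroup Γ) : Set Γ)) : Γ) = γ from rfl]
      at hr
    rw [hr, red_coeff]
    by_cases hv : ∃ v, D.iV v = γ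
    · obtain ⟨v, rfl⟩ := hv
      have h5 : (⟨D.iV v, hn⟩ : Subgroup.normalizer ((H.map D.iG : Subgroup Γ) : Set Γ)) =
          D1.iV ⟨v, hγ⟩ := Subtype.ext (hD1.hV ⟨v, hγ⟩).symm
      rw [h5, e_coeff, e_coeff, map_mul, map_mul, hcc, hD1.hθ]
      rfl
    · rw [e_coeff_zero D γ (fun v h => hv ⟨v, h⟩), e_coeff_zero D1]
      intro v h
      exact hv ⟨v, by rw [← hD1.hV v, h]⟩
  · rw [if_neg hγ]
    symm
    by_cases hn : γ ∈ Subgroup.normalizer ((H.map D.iG : Subgroup Γ) : Set Γ)
    · have hr := incl_coeff (Subgroup.normalizer ((H.map D.iG : Subgroup Γ) : Set Γ)) (red D1.e)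
        ⟨γ, hn⟩
      rw [show ((⟨γ, hn⟩ : Subgroup.normalizer ((H.map D.iG : Subgroup Γ) : Set Γ)) : Γ) = γ
        from rfl] at hr
      rw [hr, red_coeff, e_coeff_zero D1, map_zero]
      intro v h
      apply hγ
      have h6 := hD1.hV v
      rw [h] at h6
      change γ = D.iV v at h6
      rw [h6]
      exact v.2
    · exact incl_coeff_zero _ _ _ hn

end Pool.Agent.W2helper43.BD
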