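import Pool.Agent.W2helper33.BD.Fin
import Pool.Agent.Y123.ST.Jor2

/-!
# The powers of the elements commute on the normaliser modulo the Lie algebra
-/

set_option autoImplicit false
set_option linter.unusedSectionVars false

open Matrix MvPolynomial Module

noncomputable section

namespace Pool.Agent.W2helper33.BD

open Pool.Agent.TH127.PT Pool.Agent.TH119.MX Pool.Agent.TH119.DR Pool.Agent.Y123.ST Pool.Agent.W2helper33.OQ

variable {N : Type} [Fintype N] [DecidableEq N] {K : Subfield ℂ} {T : Set (Matrix N N ℂ)}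

/-- Bases of a quotient of subspaces. -/
structure QB (L M : Submodule ℂ (Matrix N N ℂ)) {q : ℕ} (Z : Fin q → Matrix N N ℂ) (φ : Fin q → (N × N → ℂ)) :
    Prop where
  mem : ∀ j, Z j ∈ M
  pp : ∀ i, φ i ∈ perp L
  dual : ∀ i j, pr (φ i) (Z j) = if i = j then 1 else 0
  dec : ∀ W ∈ M, W - ∑ j, pr (φ j) W • Z j ∈ L

theorem exists_QB {L M : Submodule ℂ (Matrix N N ℂ)} (hLM : L ≤ M) : ∃ q ≤ Fintype.card N * Fintype.card N,
    ∃ (Z : Fin q → Matrix N N ℂ) (φ : Fin q → (N × N → ℂ)), QB L M Z φ := by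
  classical
  let Lc : Submodule ℂ M := L.comap M.subtype
  let b := Module.finBasis ℂ (M ⧸ Lc)
  have hZ : ∀ j, ∃ z : M, Lc.mkQ z = b j := fun j => Lc.mkQ_surjective _
  choose Z hZ using hZ
  have hg : ∀ i, ∃ φ : N × N → ℂ, ∀ z : M, pr φ (z : Matrix N N ℂ) = b.coord i (Lc.mkQ z) := by
    intro i
    obtain ⟨g, hg⟩ := LinearMap.exists_extend ((b.coord i).comp Lc.mkQ)
    obtain ⟨φ, rfl⟩ := exists_pr g
    exact ⟨φ, fun z => LinearMap.congr_fun hg z⟩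
  choose φ hφ using hg
  refine ⟨_, ?_, fun j => (Z j : Matrix N N ℂ), φ, ⟨fun j => (Z j).2, ?_, ?_, ?_⟩⟩
  · have h1 : finrank ℂ (M ⧸ Lc) ≤ finrank ℂ M := Submodule.finrank_quotient_le _
    have h2 : finrank ℂ M ≤ finrank ℂ (Matrix N N ℂ) := Submodule.finrank_le _
    have h3 : finrank ℂ (Matrix N N ℂ) = Fintype.card N * Fintype.card N := by
      rw [Module.finrank_matrix, Module.finrank_self, mul_one]
    omega
  · intro i w hw
    rw [hφ i ⟨w, hLM hw⟩]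
    have h1 : Lc.mkQ ⟨w, hLM hw⟩ = 0 := by
      rw [Submodule.mkQ_apply, Submodule.Quotient.mk_eq_zero]
      exact hw
    rw [h1, map_zero]
  · intro i j
    rw [hφ, hZ, Basis.coord_apply, Basis.repr_self, Finsupp.single_apply]
    simp only [eq_comm]
  · intro W hW
    have h1 : Lc.mkQ (⟨W, hW⟩ - ∑ j, pr (φ j) W • Z j) = 0 := by
      rw [map_sub, map_sum]
      have h2 : ∀ j, Lc.mkQ (pr (φ j) W • Z j) = b.repr (Lc.mkQ ⟨W, hW⟩) j • b j := by
        intro j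
        rw [map_smul, hZ]
        congr 1
        exact hφ j ⟨W, hW⟩
      rw [Finset.sum_congr rfl fun j _ => h2 j, b.sum_repr, sub_self]
    rw [Submodule.mkQ_apply, Submodule.Quotient.mk_eq_zero] at h1
    have h3 : M.subtype (⟨W, hW⟩ - ∑ j, pr (φ j) W • Z j) ∈ L := h1
    rw [map_sub, map_sum] at h3
    simpa using h3


/-! ### The stabiliser of the Lie algebra -/

/-- The invertible matrices which normalise the space `L`. -/
structure Sb (L : Submodule ℂ (Matrix N N ℂ)) (g : Matrix N N ℂ) : Prop where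
  unit : IsUnit g
  fwd : ∀ w ∈ L, g * w * g⁻¹ ∈ L
  bwd : ∀ w ∈ L, g⁻¹ * w * g ∈ L

variable {L : Submodule ℂ (Matrix N N ℂ)} {g h : Matrix N N ℂ}

theorem Sb.mi (hg : Sb L g) : g * g⁻¹ = 1 := Matrix.mul_nonsing_inv g ((Matrix.isUnit_iff_isUnit_det g).1 hg.unit)

theorem Sb.im (hg : Sb L g) : g⁻¹ * g = 1 := Matrix.nonsing_inv_mul g ((Matrix.isUnit_iff_isUnit_det g).1 hg.unit)

theorem Sb.inv (hg : Sb L g) : Sb L g⁻¹ := by
  have h1 : g⁻¹⁻¹ = g := Matrix.nonsing_inv_nonsing_inv g ((Matrix.isUnit_iff_isUnit_det g).1 hg.unit)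
  refine ⟨IsUnit.of_mul_eq_one _ hg.im, fun w hw => ?_, fun w hw => ?_⟩
  · rw [h1]
    exact hg.bwd w hw
  · rw [h1]
    exact hg.fwd w hw

theorem Sb.mul (hg : Sb L g) (hh : Sb L h) : Sb L (g * h) := by
  refine ⟨hg.unit.mul hh.unit, fun w hw => ?_, fun w hw => ?_⟩
  · rw [Matrix.mul_inv_rev]
    have h1 := hg.fwd _ (hh.fwd w hw)
    simp only [Matrix.mul_assoc] at h1 ⊢
    exact h1
  · rw [Matrix.mul_inv_rev]
    have h1 := hh.bwd _ (hg.bwd w hw)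
    simp only [Matrix.mul_assoc] at h1 ⊢
    exact h1

theorem Sb.one : Sb L (1 : Matrix N N ℂ) := by
  refine ⟨isUnit_one, fun w hw => ?_, fun w hw => ?_⟩
  · rw [inv_one, Matrix.mul_one, Matrix.one_mul]
    exact hw
  · rw [inv_one, Matrix.mul_one, Matrix.one_mul]
    exact hw

theorem Sb.pow (hg : Sb L g) (k : ℕ) : Sb L (g ^ k) := by
  induction k with
  | zero => rw [pow_zero]; exact Sb.one
  | succ k ih => rw [pow_succ]; exact ih.mul hg

theorem Sb.nr (hg : Sb L g) {Z : Matrix N N ℂ} (hZ : Z ∈ Nr L) : g * Z * g⁻¹ ∈ Nr L := by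
  intro w hw
  have h1 := hg.fwd _ (hZ _ (hg.bwd w hw))
  have h2 : g * (Z * (g⁻¹ * w * g) - g⁻¹ * w * g * Z) * g⁻¹ =
      g * Z * g⁻¹ * w * (g * g⁻¹) - (g * g⁻¹) * w * (g * Z * g⁻¹) := by
    rw [Matrix.mul_sub, Matrix.sub_mul]
    simp only [Matrix.mul_assoc]
  rw [h2, hg.mi, Matrix.mul_one, Matrix.one_mul] at h1
  exact h1

/-- The elements of the group of the subtorsor. -/
theorem sb_of_mem (hT : IsSubtorsor K T) {c x : Matrix N N ℂ} (hc : c ∈ T) (hx : x ∈ T) : Sb (LM T) (x * c⁻¹) := by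
  have hcu := hT.isUnit c hc
  have h1 : (c⁻¹)⁻¹ = c := Matrix.nonsing_inv_nonsing_inv c ((Matrix.isUnit_iff_isUnit_det c).1 hcu)
  refine ⟨(hT.isUnit x hx).mul (IsUnit.of_mul_eq_one _ (inv_mul' hT hc)), fun w hw => ?_, fun w hw => ?_⟩
  · rw [Matrix.mul_inv_rev, h1]
    have h2 := conj_RM hT hx (conj_LM hT hc hw)
    simp only [Matrix.mul_assoc] at h2 ⊢
    exact h2
  · rw [Matrix.mul_inv_rev, h1]
    have h2 := conj_RM hT hc (conj_LM hT hx hw)
    simp only [Matrix.mul_assoc] at h2 ⊢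
    exact h2

/-! ### The representation -/

variable {q : ℕ} {Z : Fin q → Matrix N N ℂ} {φ : Fin q → (N × N → ℂ)}

/-- The matrix of the action on the quotient of the normaliser. -/
def rho (Z : Fin q → Matrix N N ℂ) (φ : Fin q → (N × N → ℂ)) (g : Matrix N N ℂ) : Matrix (Fin q) (Fin q) ℂ :=
  Matrix.of fun i j => pr (φ i) (g * Z j * g⁻¹)

theorem rho_one (hQ : QB L (Nr L) Z φ) : rho Z φ 1 = 1 := by
  ext i j
  change pr (φ i) (1 * Z j * 1⁻¹) = _
  rw [inv_one, Matrix.mul_one, Matrix.one_mul, hQ.dual, Matrix.one_apply]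

theorem rho_mul (hQ : QB L (Nr L) Z φ) (hg : Sb L g) (hh : Sb L h) : rho Z φ (g * h) = rho Z φ g * rho Z φ h := by
  ext i j
  rw [Matrix.mul_apply]
  change pr (φ i) (g * h * Z j * (g * h)⁻¹) = ∑ l, pr (φ i) (g * Z l * g⁻¹) * pr (φ l) (h * Z j * h⁻¹)
  have h1 : g * h * Z j * (g * h)⁻¹ = g * (h * Z j * h⁻¹) * g⁻¹ := by
    rw [Matrix.mul_inv_rev]
    simp only [Matrix.mul_assoc]
  have h2 := hg.fwd _ (hQ.dec _ (hh.nr (hQ.mem j)))
  have h3 := hQ.pp i _ h2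
  rw [Matrix.mul_sub, Matrix.sub_mul, map_sub, sub_eq_zero] at h3
  rw [h1, h3, Finset.mul_sum, Finset.sum_mul, map_sum]
  refine Finset.sum_congr rfl fun l _ => ?_
  rw [Matrix.mul_smul, Matrix.smul_mul, map_smul, smul_eq_mul, mul_comm]

theorem rho_pow (hQ : QB L (Nr L) Z φ) (hg : Sb L g) (k : ℕ) : rho Z φ (g ^ k) = rho Z φ g ^ k := by
  induction k with
  | zero => rw [pow_zero, pow_zero, rho_one hQ]
  | succ k ih => rw [pow_succ, pow_succ, rho_mul hQ (hg.pow k) hg, ih]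

theorem rho_inv (hQ : QB L (Nr L) Z φ) (hg : Sb L g) : rho Z φ g * rho Z φ g⁻¹ = 1 := by
  rw [← rho_mul hQ hg hg.inv, hg.mi, rho_one hQ]

/-- Powers which make all pairs of elements of finite groups commute. -/
def JJ (n : ℕ) : ℕ := ∏ q ∈ Finset.range (n + 1), (Jor.jordan q).choose.factorial

theorem JJ_pos (n : ℕ) : 0 < JJ n := Finset.prod_pos fun _ _ => Nat.factorial_pos _

theorem dvd_JJ {n q k : ℕ} (hq : q ≤ n) (hk : 1 ≤ k) (hk' : k ≤ (Jor.jordan q).choose) : k ∣ JJ n :=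
  (Nat.dvd_factorial hk hk').trans (Finset.dvd_prod_of_mem _ (Finset.mem_range.2 (by omega)))

/-- **The powers of the elements of the group commute.** -/
theorem comm_T (hK : ∀ x ∈ K, IsAlgebraic ℚ x) (hT : IsSubtorsor K T) {c : Matrix N N ℂ} (hc : c ∈ T)
    (hQ : QB (LM T) (Nr (LM T)) Z φ) {n : ℕ} (hq : q ≤ n) {x y : Matrix N N ℂ} (hx : x ∈ T) (hy : y ∈ T) :
    Commute (rho Z φ (x * c⁻¹) ^ JJ n) (rho Z φ (y * c⁻¹) ^ JJ n) := by
  classical
  have e1 := mul_inv' hT hc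
  have e2 := inv_mul' hT hc
  obtain ⟨S, hS1, hS2, hS3⟩ := finite_act hK hT
  let G : Set (Matrix (Fin q) (Fin q) ℂ) := (fun x => rho Z φ (x * c⁻¹)) '' T
  have hform : ∀ x j, x * c⁻¹ * Z j * (x * c⁻¹)⁻¹ = x * (c⁻¹ * Z j * c) * x⁻¹ := by
    intro x j
    rw [Matrix.mul_inv_rev, Matrix.nonsing_inv_nonsing_inv c ((Matrix.isUnit_iff_isUnit_det c).1 (hT.isUnit c hc))]
    simp only [Matrix.mul_assoc]
  have hfin : G.Finite := by
    refine (hS1.image fun x => rho Z φ (x * c⁻¹)).subset ?_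
    rintro _ ⟨x, hx, rfl⟩
    obtain ⟨s, hs, h1⟩ := hS3 x hx
    refine ⟨s, hs, ?_⟩
    ext i j
    change pr (φ i) (s * c⁻¹ * Z j * (s * c⁻¹)⁻¹) = pr (φ i) (x * c⁻¹ * Z j * (x * c⁻¹)⁻¹)
    rw [hform, hform]
    exact (h1 _ (conj_Nr' hT hc (hQ.mem j)) _ (hQ.pp i)).symm
  have hmul : ∀ a ∈ G, ∀ b ∈ G, a * b ∈ G := by
    rintro _ ⟨x, hx, rfl⟩ _ ⟨y, hy, rfl⟩
    refine ⟨x * c⁻¹ * y, hT.torsor x hx c hc y hy, ?_⟩
    change rho Z φ (x * c⁻¹ * y * c⁻¹) = _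
    rw [← rho_mul hQ (sb_of_mem hT hc hx) (sb_of_mem hT hc hy), Matrix.mul_assoc (x * c⁻¹)]
  have hone : (1 : Matrix (Fin q) (Fin q) ℂ) ∈ G := ⟨c, hc, by
    change rho Z φ (c * c⁻¹) = 1
    rw [e1, rho_one hQ]⟩
  have hinv' : ∀ x ∈ T, (rho Z φ (x * c⁻¹))⁻¹ = rho Z φ (c * x⁻¹ * c * c⁻¹) := by
    intro x hx
    refine Matrix.inv_eq_right_inv ?_
    have h1 : c * x⁻¹ * c * c⁻¹ = (x * c⁻¹)⁻¹ := by
      rw [Matrix.mul_inv_rev, Matrix.nonsing_inv_nonsing_inv c ((Matrix.isUnit_iff_isUnit_det c).1 (hT.isUnit c hc)),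
        Matrix.mul_assoc (c * x⁻¹), e1, Matrix.mul_one]
    rw [h1]
    exact rho_inv hQ (sb_of_mem hT hc hx)
  have hinv : ∀ a ∈ G, a⁻¹ ∈ G := by
    rintro _ ⟨x, hx, rfl⟩
    exact ⟨c * x⁻¹ * c, hT.torsor c hc x hx c hc, (hinv' x hx).symm⟩
  have hdet : ∀ a ∈ G, IsUnit a.det := by
    rintro _ ⟨x, hx, rfl⟩
    exact (Matrix.isUnit_iff_isUnit_det _).1 (IsUnit.of_mul_eq_one _ (rho_inv hQ (sb_of_mem hT hc hx)))
  obtain ⟨k, l, ⟨hk1, hk2⟩, ⟨hl1, hl2⟩, h1⟩ := (Jor.jordan q).choose_spec G hfin hone hmul hdet hinv _ ⟨x, hx, rfl⟩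
    _ ⟨y, hy, rfl⟩
  obtain ⟨a, ha⟩ := dvd_JJ hq hk1 hk2
  obtain ⟨b, hb⟩ := dvd_JJ hq hl1 hl2
  have h2 : Commute ((rho Z φ (x * c⁻¹) ^ k) ^ a) ((rho Z φ (y * c⁻¹) ^ l) ^ b) :=
    Commute.pow_pow (show Commute _ _ from h1) a b
  rw [← pow_mul, ← pow_mul, ← ha, ← hb] at h2
  exact h2

/-- The polynomials which express the commutation. -/
theorem comm_desc (hT : IsSubtorsor K T) {d m : ℕ} (hd : m * (1 + D0 N) ≤ d) {c y : Matrix N N ℂ} (hc : c ∈ T)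
    (hyu : IsUnit y) (hy : RelTo K d c y) (B : Matrix (Fin q) (Fin q) ℂ)
    (hB : ∀ x ∈ T, Commute (rho Z φ (x * c⁻¹) ^ m) B) : Commute (rho Z φ (y * c⁻¹) ^ m) B := by
  classical
  let PP : Matrix (Fin q) (Fin q) (MvPolynomial (N × N) ℂ) := Matrix.of fun i j => cj (φ i) (c⁻¹ * Z j * c)
  have hPP : ∀ x, IsUnit x → PP.map (eval (fl x)) = x.det • rho Z φ (x * c⁻¹) := by
    intro x hx
    ext i j
    change eval (fl x) (cj (φ i) (c⁻¹ * Z j * c)) = x.det * pr (φ i) (x * c⁻¹ * Z j * (x * c⁻¹)⁻¹)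
    rw [eval_cj _ _ _ hx]
    congr 2
    rw [Matrix.mul_inv_rev, Matrix.nonsing_inv_nonsing_inv c ((Matrix.isUnit_iff_isUnit_det c).1 (hT.isUnit c hc))]
    simp only [Matrix.mul_assoc]
  let EE : Matrix (Fin q) (Fin q) (MvPolynomial (N × N) ℂ) := PP ^ m * B.map C - B.map C * PP ^ m
  have hEE : ∀ x, IsUnit x → EE.map (eval (fl x)) =
      x.det ^ m • (rho Z φ (x * c⁻¹) ^ m * B - B * rho Z φ (x * c⁻¹) ^ m) := by
    intro x hx
    have h1 : (B.map (C : ℂ → MvPolynomial (N × N) ℂ)).map (eval (fl x)) = B := by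
      ext i j
      simp
    have h2 : (PP ^ m).map (eval (fl x)) = x.det ^ m • rho Z φ (x * c⁻¹) ^ m := by
      have h3 := map_pow ((eval (fl x)).mapMatrix (m := Fin q)) PP m
      rw [RingHom.mapMatrix_apply, RingHom.mapMatrix_apply, hPP x hx, smul_pow] at h3
      exact h3
    have h3 : EE.map (eval (fl x)) = (PP ^ m * B.map C).map (eval (fl x)) - (B.map C * PP ^ m).map (eval (fl x)) :=
      Matrix.map_sub _ (fun a b => map_sub _ a b) _ _
    rw [h3, Matrix.map_mul, Matrix.map_mul, h1, h2, Matrix.smul_mul, Matrix.mul_smul, smul_sub]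
  have hdeg : ∀ i j, (EE i j).totalDegree ≤ d := by
    intro i j
    have h0 : ∀ i j, (PP i j).totalDegree ≤ 1 + D0 N := fun i j => deg_cj _ _
    have h1 := fun i j => deg_pow h0 m i j
    have h2 : ∀ i j, ((B.map (C : ℂ → MvPolynomial (N × N) ℂ)) i j).totalDegree ≤ 0 := fun i j => by
      rw [Matrix.map_apply, totalDegree_C]
    change ((PP ^ m * B.map (C : ℂ → MvPolynomial (N × N) ℂ)) i j -
      (B.map (C : ℂ → MvPolynomial (N × N) ℂ) * PP ^ m) i j).totalDegree ≤ d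
    refine (totalDegree_sub _ _).trans (max_le ?_ ?_)
    · exact (deg_mul h1 h2 i j).trans (by omega)
    · exact (deg_mul h2 h1 i j).trans (by omega)
  have hvan : ∀ i j, Van T (EE i j) := by
    intro i j x hx
    have h1 := congrFun (congrFun (hEE x (hT.isUnit x hx)) i) j
    have h2 : rho Z φ (x * c⁻¹) ^ m * B - B * rho Z φ (x * c⁻¹) ^ m = 0 := sub_eq_zero.2 (hB x hx)
    rw [h2, smul_zero] at h1
    exact h1
  have h1 := hEE y hyu
  have h2 : EE.map (eval (fl y)) = 0 := by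
    ext i j
    exact van_desc hT hc hy (hvan i j) (hdeg i j)
  rw [h2] at h1
  have h3 : y.det ^ m ≠ 0 := pow_ne_zero _ ((Matrix.isUnit_iff_isUnit_det y).1 hyu).ne_zero
  have h4 := (smul_eq_zero.1 h1.symm).resolve_left h3
  exact sub_eq_zero.1 h4

end Pool.Agent.W2helper33.BD

end
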