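import Pool.Agent.W2helper33.BD.Comm

/-!
# Relations of bounded degree suffice
-/

set_option autoImplicit false
set_option linter.unusedSectionVars false

open Matrix MvPolynomial Module

noncomputable section

namespace Pool.Agent.W2helper33.BD

open Pool.Agent.TH127.PT Pool.Agent.TH119.MX Pool.Agent.TH119.DR Pool.Agent.Y123.ST Pool.Agent.W2helper33.OQ

variable {N : Type} [Fintype N] [DecidableEq N] {K : Subfield ℂ} {T : Set (Matrix N N ℂ)}

theorem exp_inv (X : Matrix N N ℂ) : (NormedSpace.exp X)⁻¹ = NormedSpace.exp (-X) := by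
  refine Matrix.inv_eq_right_inv ?_
  rw [← Matrix.exp_add_of_commute _ _ (Commute.neg_right (Commute.refl X)), add_neg_cancel, NormedSpace.exp_zero]

/-- The derivative of the conjugates by a one-parameter group. -/
theorem hasDerivAt_conj (ψ : N × N → ℂ) (X U : Matrix N N ℂ) :
    HasDerivAt (fun s : ℂ => pr ψ (NormedSpace.exp (s • X) * U * NormedSpace.exp (-(s • X)))) (pr ψ (X * U - U * X))
      0 := by
  have h1 : ∀ i k, HasDerivAt (fun s : ℂ => (NormedSpace.exp (s • X) * U) i k) ((X * U) i k) 0 := by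
    intro i k
    have h2 := hasDerivAt_left X U (i, k) 0
    rw [zero_smul, NormedSpace.exp_zero, Matrix.one_mul] at h2
    exact h2
  have h2 : ∀ k j, HasDerivAt (fun s : ℂ => NormedSpace.exp (-(s • X)) k j) ((-X) k j) 0 := by
    intro k j
    have h3 := hasDerivAt_left (-X) (1 : Matrix N N ℂ) (k, j) 0
    rw [zero_smul, NormedSpace.exp_zero, Matrix.one_mul, Matrix.mul_one] at h3
    have h4 : (fun s : ℂ => fl (NormedSpace.exp (s • -X) * (1 : Matrix N N ℂ)) (k, j)) =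
        fun s : ℂ => NormedSpace.exp (-(s • X)) k j := by
      funext s
      rw [Matrix.mul_one, smul_neg]
      rfl
    rw [h4] at h3
    exact h3
  have h3 : ∀ b : N × N, HasDerivAt (fun s : ℂ => (NormedSpace.exp (s • X) * U * NormedSpace.exp (-(s • X))) b.1 b.2)
      ((X * U - U * X) b.1 b.2) 0 := by
    intro b
    have h4 : (fun s : ℂ => (NormedSpace.exp (s • X) * U * NormedSpace.exp (-(s • X))) b.1 b.2) =
        fun s : ℂ => ∑ k, (NormedSpace.exp (s • X) * U) b.1 k * NormedSpace.exp (-(s • X)) k b.2 := by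
      funext s
      exact Matrix.mul_apply
    have h5 : (X * U - U * X) b.1 b.2 = ∑ k, ((X * U) b.1 k * NormedSpace.exp (-((0 : ℂ) • X)) k b.2 +
        (NormedSpace.exp ((0 : ℂ) • X) * U) b.1 k * (-X) k b.2) := by
      rw [Finset.sum_add_distrib, ← Matrix.mul_apply, ← Matrix.mul_apply, zero_smul, neg_zero, NormedSpace.exp_zero,
        Matrix.mul_one, Matrix.one_mul, Matrix.mul_neg]
      rfl
    rw [h4, h5]
    exact HasDerivAt.fun_sum fun k _ => (h1 b.1 k).mul (h2 k b.2)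
  have h4 : (fun s : ℂ => pr ψ (NormedSpace.exp (s • X) * U * NormedSpace.exp (-(s • X)))) =
      fun s : ℂ => ∑ b, ψ b * (NormedSpace.exp (s • X) * U * NormedSpace.exp (-(s • X))) b.1 b.2 := rfl
  rw [h4, pr_apply]
  exact HasDerivAt.fun_sum fun b _ => (h3 b).const_mul _

/-- A functional composed with a conjugation. -/
theorem exists_pr_conj (ψ : N × N → ℂ) (g h : Matrix N N ℂ) : ∃ χ, ∀ M, pr χ M = pr ψ (g * M * h) := by
  obtain ⟨χ, hχ⟩ := exists_pr (((pr ψ).comp (LinearMap.mulRight ℂ h)).comp (LinearMap.mulLeft ℂ g))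
  exact ⟨χ, fun M => by rw [hχ]; rfl⟩

section main

variable {d : ℕ} {c : Matrix N N ℂ} {𝔤 : Submodule ℂ (Matrix N N ℂ)}

/-- The exponentials normalise the Lie algebra. -/
theorem fwd_exp (hT : IsSubtorsor K T) (hd : 1 + D0 N ≤ d) (hc : c ∈ T)
    (hrel : ∀ X ∈ 𝔤, RelTo K d c (NormedSpace.exp X * c)) {X : Matrix N N ℂ} (hX : X ∈ 𝔤) {w : Matrix N N ℂ}
    (hw : w ∈ LM T) : NormedSpace.exp X * w * NormedSpace.exp (-X) ∈ LM T := by
  refine mem_of_perp fun ψ hψ => ?_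
  have hcu := hT.isUnit c hc
  have hyu : IsUnit (NormedSpace.exp X * c) := (isUnit_exp' X).mul hcu
  have h1 : Van T (cj ψ (c⁻¹ * w * c)) := by
    intro x hx
    rw [eval_cj _ _ _ (hT.isUnit x hx), hψ _ (conj_RM hT hx (conj_LM hT hc hw)), mul_zero]
  have h2 := van_desc hT hc (hrel X hX) h1 ((deg_cj _ _).trans hd)
  rw [eval_cj _ _ _ hyu] at h2
  have h3 := (mul_eq_zero.1 h2).resolve_left ((Matrix.isUnit_iff_isUnit_det _).1 hyu).ne_zero
  have h4 : NormedSpace.exp X * c * (c⁻¹ * w * c) * (NormedSpace.exp X * c)⁻¹ =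
      NormedSpace.exp X * (c * c⁻¹) * w * (c * c⁻¹) * NormedSpace.exp (-X) := by
    rw [Matrix.mul_inv_rev, exp_inv]
    simp only [Matrix.mul_assoc]
  rw [h4, mul_inv' hT hc, Matrix.mul_one, Matrix.mul_one] at h3
  exact h3

theorem sb_exp (hT : IsSubtorsor K T) (hd : 1 + D0 N ≤ d) (hc : c ∈ T)
    (hrel : ∀ X ∈ 𝔤, RelTo K d c (NormedSpace.exp X * c)) {X : Matrix N N ℂ} (hX : X ∈ 𝔤) :
    Sb (LM T) (NormedSpace.exp X) := by
  refine ⟨isUnit_exp' X, fun w hw => ?_, fun w hw => ?_⟩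
  · rw [exp_inv]
    exact fwd_exp hT hd hc hrel hX hw
  · rw [exp_inv]
    have h1 := fwd_exp hT hd hc hrel (𝔤.neg_mem hX) hw
    rwa [neg_neg] at h1

/-- The Lie algebra is in the normaliser. -/
theorem mem_nr (hT : IsSubtorsor K T) (hd : 1 + D0 N ≤ d) (hc : c ∈ T)
    (hrel : ∀ X ∈ 𝔤, RelTo K d c (NormedSpace.exp X * c)) {X : Matrix N N ℂ} (hX : X ∈ 𝔤) : X ∈ Nr (LM T) := by
  intro w hw
  refine mem_of_perp fun ψ hψ => ?_
  have h1 := hasDerivAt_conj ψ X w
  have h2 : (fun s : ℂ => pr ψ (NormedSpace.exp (s • X) * w * NormedSpace.exp (-(s • X)))) = fun _ => 0 := by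
    funext s
    exact hψ _ (fwd_exp hT hd hc hrel (𝔤.smul_mem s hX) hw)
  rw [h2] at h1
  exact h1.unique (hasDerivAt_const 0 0)

/-- The exponentials commute on the quotient. -/
theorem comm_exp (hK : ∀ x ∈ K, IsAlgebraic ℚ x) (hT : IsSubtorsor K T)
    (hd : JJ (Fintype.card N * Fintype.card N) * (1 + D0 N) ≤ d) (hc : c ∈ T)
    (hrel : ∀ X ∈ 𝔤, RelTo K d c (NormedSpace.exp X * c)) {X Y : Matrix N N ℂ} (hX : X ∈ 𝔤) (hY : Y ∈ 𝔤)
    {W : Matrix N N ℂ} (hW : W ∈ Nr (LM T)) :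
    NormedSpace.exp X * (NormedSpace.exp Y * W * NormedSpace.exp (-Y)) * NormedSpace.exp (-X) -
      NormedSpace.exp Y * (NormedSpace.exp X * W * NormedSpace.exp (-X)) * NormedSpace.exp (-Y) ∈ LM T := by
  classical
  set m := JJ (Fintype.card N * Fintype.card N) with hm
  have hm0 : 0 < m := JJ_pos _
  have hd1 : 1 + D0 N ≤ d := le_trans (by nlinarith) hd
  obtain ⟨q, hq, Z, φ, hQ⟩ := exists_QB (LM_le_Nr (T := T))
  have e1 := mul_inv' hT hc
  have hcu := hT.isUnit c hc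
  have hecc : ∀ X : Matrix N N ℂ, NormedSpace.exp X * c * c⁻¹ = NormedSpace.exp X := by
    intro X
    rw [Matrix.mul_assoc, e1, Matrix.mul_one]
  -- powers
  have h1 : ∀ X ∈ 𝔤, ∀ x ∈ T, Commute (rho Z φ (NormedSpace.exp X) ^ m) (rho Z φ (x * c⁻¹) ^ m) := by
    intro X hX x hx
    have h2 := comm_desc (Z := Z) (φ := φ) hT hd hc ((isUnit_exp' X).mul hcu) (hrel X hX) (rho Z φ (x * c⁻¹) ^ m)
      fun y hy => comm_T hK hT hc hQ hq hy hx
    rwa [hecc] at h2
  have h2 : ∀ X ∈ 𝔤, ∀ Y ∈ 𝔤, Commute (rho Z φ (NormedSpace.exp X) ^ m) (rho Z φ (NormedSpace.exp Y) ^ m) := by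
    intro X hX Y hY
    have h3 := comm_desc (Z := Z) (φ := φ) hT hd hc ((isUnit_exp' X).mul hcu) (hrel X hX)
      (rho Z φ (NormedSpace.exp Y) ^ m) fun y hy => (h1 Y hY y hy).symm
    rwa [hecc] at h3
  have h3 : ∀ X ∈ 𝔤, ∀ Y ∈ 𝔤, Commute (rho Z φ (NormedSpace.exp X)) (rho Z φ (NormedSpace.exp Y)) := by
    intro X hX Y hY
    have h4 : ∀ X ∈ 𝔤, rho Z φ (NormedSpace.exp ((m : ℂ)⁻¹ • X)) ^ m = rho Z φ (NormedSpace.exp X) := by
      intro X hX
      rw [← rho_pow hQ (sb_exp hT hd1 hc hrel (𝔤.smul_mem _ hX)), ← Matrix.exp_nsmul, ← Nat.cast_smul_eq_nsmul ℂ,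
        smul_smul, mul_inv_cancel₀ (Nat.cast_ne_zero.2 hm0.ne'), one_smul]
    have h5 := h2 _ (𝔤.smul_mem (m : ℂ)⁻¹ hX) _ (𝔤.smul_mem (m : ℂ)⁻¹ hY)
    rwa [h4 X hX, h4 Y hY] at h5
  have h4 := h3 X hX Y hY
  have sX := sb_exp hT hd1 hc hrel hX
  have sY := sb_exp hT hd1 hc hrel hY
  -- on the basis
  have h5 : ∀ j i, pr (φ i) (NormedSpace.exp X * (NormedSpace.exp Y * Z j * NormedSpace.exp (-Y)) *
      NormedSpace.exp (-X)) = pr (φ i) (NormedSpace.exp Y * (NormedSpace.exp X * Z j * NormedSpace.exp (-X)) *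
      NormedSpace.exp (-Y)) := by
    intro j i
    have h6 : rho Z φ (NormedSpace.exp X * NormedSpace.exp Y) = rho Z φ (NormedSpace.exp Y * NormedSpace.exp X) := by
      rw [rho_mul hQ sX sY, rho_mul hQ sY sX]
      exact h4
    have h7 := congrFun (congrFun h6 i) j
    change pr (φ i) (NormedSpace.exp X * NormedSpace.exp Y * Z j * (NormedSpace.exp X * NormedSpace.exp Y)⁻¹) =
      pr (φ i) (NormedSpace.exp Y * NormedSpace.exp X * Z j * (NormedSpace.exp Y * NormedSpace.exp X)⁻¹) at h7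
    rw [Matrix.mul_inv_rev, Matrix.mul_inv_rev, exp_inv, exp_inv] at h7
    simp only [Matrix.mul_assoc] at h7 ⊢
    exact h7
  -- the difference as a linear map
  let Dl : Matrix N N ℂ →ₗ[ℂ] Matrix N N ℂ :=
    { toFun := fun W => NormedSpace.exp X * (NormedSpace.exp Y * W * NormedSpace.exp (-Y)) * NormedSpace.exp (-X) -
        NormedSpace.exp Y * (NormedSpace.exp X * W * NormedSpace.exp (-X)) * NormedSpace.exp (-Y)
      map_add' := fun A B => by
        simp only [Matrix.mul_add, Matrix.add_mul]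
        abel
      map_smul' := fun a A => by
        simp only [Matrix.mul_smul, Matrix.smul_mul, RingHom.id_apply, smul_sub] }
  have hDL : ∀ w ∈ LM T, Dl w ∈ LM T := by
    intro w hw
    refine Submodule.sub_mem _ ?_ ?_
    · exact fwd_exp hT hd1 hc hrel hX (fwd_exp hT hd1 hc hrel hY hw)
    · exact fwd_exp hT hd1 hc hrel hY (fwd_exp hT hd1 hc hrel hX hw)
  have hDZ : ∀ j, Dl (Z j) ∈ LM T := by
    intro j
    have h8 : Dl (Z j) ∈ Nr (LM T) := by
      have h9 := sX.nr (sY.nr (hQ.mem j))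
      have h10 := sY.nr (sX.nr (hQ.mem j))
      rw [exp_inv, exp_inv] at h9 h10
      exact Submodule.sub_mem _ h9 h10
    have h11 := hQ.dec _ h8
    have h12 : ∑ i, pr (φ i) (Dl (Z j)) • Z i = 0 := by
      refine Finset.sum_eq_zero fun i _ => ?_
      have h13 : pr (φ i) (Dl (Z j)) = 0 := by
        change pr (φ i) (_ - _) = 0
        rw [map_sub, h5, sub_self]
      rw [h13, zero_smul]
    rwa [h12, sub_zero] at h11
  have h6 : W = (W - ∑ j, pr (φ j) W • Z j) + ∑ j, pr (φ j) W • Z j := by abel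
  change Dl W ∈ LM T
  rw [h6, map_add, map_sum]
  refine Submodule.add_mem _ (hDL _ (hQ.dec _ hW)) (Submodule.sum_mem _ fun j _ => ?_)
  rw [map_smul]
  exact Submodule.smul_mem _ _ (hDZ j)

/-- The triple brackets are in the Lie algebra. -/
theorem triple_mem (hK : ∀ x ∈ K, IsAlgebraic ℚ x) (hT : IsSubtorsor K T)
    (hd : JJ (Fintype.card N * Fintype.card N) * (1 + D0 N) ≤ d) (hc : c ∈ T)
    (hrel : ∀ X ∈ 𝔤, RelTo K d c (NormedSpace.exp X * c)) {X Y : Matrix N N ℂ} (hX : X ∈ 𝔤) (hY : Y ∈ 𝔤)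
    {W : Matrix N N ℂ} (hW : W ∈ Nr (LM T)) :
    (X * Y - Y * X) * W - W * (X * Y - Y * X) ∈ LM T := by
  refine mem_of_perp fun ψ hψ => ?_
  -- the first derivative
  have h1 : ∀ Y ∈ 𝔤, pr ψ (X * (NormedSpace.exp Y * W * NormedSpace.exp (-Y)) -
      (NormedSpace.exp Y * W * NormedSpace.exp (-Y)) * X) =
      pr ψ (NormedSpace.exp Y * (X * W - W * X) * NormedSpace.exp (-Y)) := by
    intro Y hY
    obtain ⟨χ, hχ⟩ := exists_pr_conj ψ (NormedSpace.exp Y) (NormedSpace.exp (-Y))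
    have h2 := hasDerivAt_conj ψ X (NormedSpace.exp Y * W * NormedSpace.exp (-Y))
    have h3 := hasDerivAt_conj χ X W
    have h4 := h2.sub h3
    have h5 : ((fun s : ℂ => pr ψ (NormedSpace.exp (s • X) * (NormedSpace.exp Y * W * NormedSpace.exp (-Y)) *
        NormedSpace.exp (-(s • X)))) - fun s : ℂ => pr χ (NormedSpace.exp (s • X) * W *
        NormedSpace.exp (-(s • X)))) = fun _ => 0 := by
      funext s
      rw [Pi.sub_apply, hχ, ← map_sub]
      exact hψ _ (comm_exp hK hT hd hc hrel (𝔤.smul_mem s hX) hY hW)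
    rw [h5] at h4
    have h6 := h4.unique (hasDerivAt_const 0 0)
    rw [sub_eq_zero.1 h6, hχ]
  -- the second derivative
  obtain ⟨χ1, hχ1⟩ := exists_pr_conj ψ X 1
  obtain ⟨χ2, hχ2⟩ := exists_pr_conj ψ 1 X
  have h2 := (hasDerivAt_conj χ1 Y W).sub (hasDerivAt_conj χ2 Y W)
  have h3 := hasDerivAt_conj ψ Y (X * W - W * X)
  have h4 := h2.sub h3
  have h5 : (((fun s : ℂ => pr χ1 (NormedSpace.exp (s • Y) * W * NormedSpace.exp (-(s • Y)))) -
      fun s : ℂ => pr χ2 (NormedSpace.exp (s • Y) * W * NormedSpace.exp (-(s • Y)))) -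
      fun s : ℂ => pr ψ (NormedSpace.exp (s • Y) * (X * W - W * X) * NormedSpace.exp (-(s • Y)))) = fun _ => 0 := by
    funext s
    rw [Pi.sub_apply, Pi.sub_apply, hχ1, hχ2, Matrix.mul_one, Matrix.one_mul, ← map_sub,
      h1 _ (𝔤.smul_mem s hY), sub_self]
  rw [h5] at h4
  have h6 := h4.unique (hasDerivAt_const 0 0)
  rw [hχ1, hχ2, Matrix.mul_one, Matrix.one_mul, ← map_sub, ← map_sub] at h6
  rw [← h6]
  congr 1
  simp only [Matrix.mul_sub, Matrix.sub_mul, Matrix.mul_assoc]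
  abel

/-- **The criterion.** -/
theorem crit (hK : ∀ x ∈ K, IsAlgebraic ℚ x) (hT : IsSubtorsor K T)
    (hd : JJ (Fintype.card N * Fintype.card N) * (1 + D0 N) ≤ d) (hc : c ∈ T)
    (hrel : ∀ X ∈ 𝔤, RelTo K d c (NormedSpace.exp X * c))
    (hperf : ∀ Z ∈ 𝔤, Z ∈ Submodule.span ℂ {W | ∃ X ∈ 𝔤, ∃ Y ∈ 𝔤, W = X * Y - Y * X}) : 𝔤 ≤ LM T := by
  have hd1 : 1 + D0 N ≤ d := le_trans (by nlinarith [JJ_pos (Fintype.card N * Fintype.card N)]) hd
  have h1 : ∀ V ∈ 𝔤, ∀ W ∈ 𝔤, V * W - W * V ∈ LM T := by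
    intro V hV W hW
    have h2 := hperf V hV
    clear hV
    induction h2 using Submodule.span_induction with
    | mem V hV =>
      obtain ⟨X, hX, Y, hY, rfl⟩ := hV
      exact triple_mem hK hT hd hc hrel hX hY (mem_nr hT hd1 hc hrel hW)
    | zero =>
      rw [Matrix.zero_mul, Matrix.mul_zero, sub_zero]
      exact Submodule.zero_mem _
    | add a b _ _ ha hb =>
      have h3 := Submodule.add_mem _ ha hb
      have h4 : (a + b) * W - W * (a + b) = a * W - W * a + (b * W - W * b) := by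
        rw [Matrix.add_mul, Matrix.mul_add]
        abel
      rwa [h4]
    | smul t a _ ha =>
      have h3 := Submodule.smul_mem _ t ha
      have h4 : (t • a) * W - W * (t • a) = t • (a * W - W * a) := by
        rw [Matrix.smul_mul, Matrix.mul_smul, smul_sub]
      rwa [h4]
  intro Z hZ
  have h2 := hperf Z hZ
  refine (Submodule.span_le.2 ?_) h2
  rintro _ ⟨X, hX, Y, hY, rfl⟩
  exact h1 X hX Y hY

end main

end Pool.Agent.W2helper33.BD

end
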