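import Pool.Agent.W2helper33.BD.Omega
import Pool.Agent.Y113.GG.Conv

/-!
# Functional relations which are stable under a Lie algebra
-/

set_option autoImplicit false
set_option linter.unusedSectionVars false

open Matrix Module Filter Topology

noncomputable section

namespace Pool.Agent.W2helper33.BD

open Pool.Agent.Y113.GG Pool.Agent.Y123.ST Pool.Agent.W2helper33.OQ

variable {n : ℕ}

/-- The fundamental matrix at a complex number. -/
def Zc (Z : Fin n → Fin n → PowerSeries ℚ) (z : ℂ) : Matrix (Fin n) (Fin n) ℂ := Matrix.of fun i j => Ec (Z i j) z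

/-- The period matrix of the fibre at `1 / x`. -/
def cP (Ω : Matrix (Fin n) (Fin n) ℂ) (Z : Fin n → Fin n → PowerSeries ℚ) (x : ℝ) : Matrix (Fin n) (Fin n) ℂ :=
  Matrix.of fun i j => pv Ω Z x (i, j)

theorem cP_eq (Ω : Matrix (Fin n) (Fin n) ℂ) (Z : Fin n → Fin n → PowerSeries ℚ) (x : ℝ) :
    cP Ω Z x = Ω * Zc Z (1 / (x : ℂ)) := by
  ext i j
  rw [Matrix.mul_apply]
  change pv Ω Z x (i, j) = _
  unfold pv
  refine Finset.sum_congr rfl fun a _ => ?_
  congr 1
  unfold zv Zc
  change ((Pool.Agent.Y113.ev x (Z a j) : ℝ) : ℂ) = Ec (Z a j) (1 / (x : ℂ))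
  unfold Pool.Agent.Y113.ev Ec
  push_cast
  rfl

/-- The value of a polynomial in a variable and the entries of a matrix. -/
def vF (F : MvPolynomial (Option (Fin n × Fin n)) ℂ) (u : ℂ) (M : Matrix (Fin n) (Fin n) ℂ) : ℂ :=
  MvPolynomial.eval (fun o : Option (Fin n × Fin n) => o.elim u fun p => M p.1 p.2) F

/-- The functional relations are stable under the exponentials of the elements of `𝔤`. -/
def IsSym (Ω : Matrix (Fin n) (Fin n) ℂ) (Z : Fin n → Fin n → PowerSeries ℚ)
    (𝔤 : Submodule ℂ (Matrix (Fin n) (Fin n) ℂ)) : Prop :=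
  ∀ F : MvPolynomial (Option (Fin n × Fin n)) ℂ, (∀ᶠ x : ℝ in atTop, vF F (1 / (x : ℂ)) (cP Ω Z x) = 0) →
    ∀ X ∈ 𝔤, ∀ᶠ x : ℝ in atTop, vF F (1 / (x : ℂ)) (NormedSpace.exp X * cP Ω Z x) = 0

theorem differentiableAt_eval {B : Type*} {y : ℂ → B → ℂ} {w : ℂ} (hy : ∀ b, DifferentiableAt ℂ (fun s => y s b) w)
    (P : MvPolynomial B ℂ) : DifferentiableAt ℂ (fun s => MvPolynomial.eval (y s) P) w := by
  induction P using MvPolynomial.induction_on with
  | C a =>
    simp only [MvPolynomial.eval_C]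
    exact differentiableAt_const a
  | add p q hp hq =>
    simp only [map_add]
    exact hp.add hq
  | mul_X p b hp =>
    simp only [map_mul, MvPolynomial.eval_X]
    exact hp.mul (hy b)

/-- Relations for large numbers hold for all numbers. -/
theorem all_of_large {Ω : Matrix (Fin n) (Fin n) ℂ} {Z : Fin n → Fin n → PowerSeries ℚ} {C : ℝ} (hC : 0 < C)
    (hZ : ∀ i j m, |((PowerSeries.coeff m (Z i j) : ℚ) : ℝ)| ≤ C ^ (m + 1)) (g : Matrix (Fin n) (Fin n) ℂ)
    (F : MvPolynomial (Option (Fin n × Fin n)) ℂ)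
    (h : ∀ᶠ x : ℝ in atTop, vF F (1 / (x : ℂ)) (g * cP Ω Z x) = 0) {x : ℝ} (hx : C < x) :
    vF F (1 / (x : ℂ)) (g * cP Ω Z x) = 0 := by
  let H : ℂ → ℂ := fun z => vF F z (g * (Ω * Zc Z z))
  have hd : DifferentiableOn ℂ H (Metric.ball 0 (1 / C)) := by
    intro w hw
    refine DifferentiableAt.differentiableWithinAt ?_
    refine differentiableAt_eval (fun o => ?_) F
    rcases o with _ | p
    · exact differentiableAt_id
    · change DifferentiableAt ℂ (fun s => (g * (Ω * Zc Z s)) p.1 p.2) w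
      have h1 : (fun s => (g * (Ω * Zc Z s)) p.1 p.2) = fun s => ∑ k, (g * Ω) p.1 k * Ec (Z k p.2) s := by
        funext s
        rw [← Matrix.mul_assoc, Matrix.mul_apply]
        rfl
      rw [h1]
      refine DifferentiableAt.fun_sum fun k _ => ?_
      have h2 := analyticAt_Ec hC (hZ k p.2) (w := w) (by rwa [mem_ball_zero_iff] at hw)
      exact h2.differentiableAt.const_mul _
  have ha : AnalyticOnNhd ℂ H (Metric.ball 0 (1 / C)) := hd.analyticOnNhd Metric.isOpen_ball
  have hH : ∀ x : ℝ, H (1 / (x : ℂ)) = vF F (1 / (x : ℂ)) (g * cP Ω Z x) := fun x => by rw [cP_eq]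
  have hfreq : ∃ᶠ z in 𝓝[≠] (0 : ℂ), H z = 0 := by
    have ht : Tendsto (fun x : ℝ => 1 / (x : ℂ)) atTop (𝓝[≠] (0 : ℂ)) := by
      refine tendsto_nhdsWithin_iff.2 ⟨?_, ?_⟩
      · have h1 : Tendsto (fun x : ℝ => x⁻¹) atTop (𝓝 0) := tendsto_inv_atTop_zero
        have h2 := (Complex.continuous_ofReal.tendsto 0).comp h1
        rw [Complex.ofReal_zero] at h2
        refine h2.congr fun x => ?_
        simp
      · filter_upwards [eventually_gt_atTop (0 : ℝ)] with x hx
        have : (x : ℂ) ≠ 0 := by exact_mod_cast hx.ne'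
        exact one_div_ne_zero this
    exact ht.frequently ((h.mono fun x hx => by rw [hH]; exact hx).frequently)
  have h0 := ha.eqOn_zero_of_preconnected_of_frequently_eq_zero (convex_ball _ _).isPreconnected
    (Metric.mem_ball_self (by positivity)) hfreq
  rw [← hH]
  refine h0 ?_
  rw [mem_ball_zero_iff, norm_div, norm_one, Complex.norm_real, Real.norm_eq_abs, abs_of_pos (hC.trans hx)]
  exact one_div_lt_one_div_of_lt hC hx


/-! ### Several variables -/

/-- The value of a polynomial in several variables. -/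
def vG {k : ℕ} (G : MvPolynomial (Fin k ⊕ (Fin k × (Fin n × Fin n))) ℂ) (u : Fin k → ℂ)
    (M : Fin k → Matrix (Fin n) (Fin n) ℂ) : ℂ :=
  MvPolynomial.eval (Sum.elim u fun p => M p.1 p.2.1 p.2.2) G

/-- All variables but one are constants. -/
def sl {k : ℕ} (G : MvPolynomial (Fin k ⊕ (Fin k × (Fin n × Fin n))) ℂ) (a : Fin k) (u : Fin k → ℂ)
    (M : Fin k → Matrix (Fin n) (Fin n) ℂ) : MvPolynomial (Option (Fin n × Fin n)) ℂ :=
  MvPolynomial.bind₁ (Sum.elim (fun l => if l = a then MvPolynomial.X none else MvPolynomial.C (u l))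
    fun p => if p.1 = a then MvPolynomial.X (some p.2) else MvPolynomial.C (M p.1 p.2.1 p.2.2)) G

theorem vF_sl {k : ℕ} (G : MvPolynomial (Fin k ⊕ (Fin k × (Fin n × Fin n))) ℂ) (a : Fin k) (u : Fin k → ℂ)
    (M : Fin k → Matrix (Fin n) (Fin n) ℂ) (v : ℂ) (W : Matrix (Fin n) (Fin n) ℂ) :
    vF (sl G a u M) v W = vG G (Function.update u a v) (Function.update M a W) := by
  unfold vF sl vG
  rw [MvPolynomial.eval, MvPolynomial.coe_eval₂Hom, ← MvPolynomial.coe_eval₂Hom, MvPolynomial.eval₂Hom_bind₁]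
  rw [MvPolynomial.coe_eval₂Hom]
  congr 1
  funext i
  rcases i with l | p
  · rcases eq_or_ne l a with rfl | hl
    · simp
    · simp [hl]
  · by_cases hp : p.1 = a
    · subst hp
      simp
    · simp [hp]

/-- **The relations between several members** are stable under the products of the exponentials. -/
theorem multi {Ω : Matrix (Fin n) (Fin n) ℂ} {Z : Fin n → Fin n → PowerSeries ℚ}
    {𝔤 : Submodule ℂ (Matrix (Fin n) (Fin n) ℂ)} {C : ℝ} (hC : 0 < C)
    (hZ : ∀ i j m, |((PowerSeries.coeff m (Z i j) : ℚ) : ℝ)| ≤ C ^ (m + 1)) (hs : IsSym Ω Z 𝔤) {k : ℕ}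
    (G : MvPolynomial (Fin k ⊕ (Fin k × (Fin n × Fin n))) ℂ) {x₀ : ℝ}
    (h : ∀ x : Fin k → ℝ, (∀ l, x₀ < x l) → vG G (fun l => 1 / (x l : ℂ)) (fun l => cP Ω Z (x l)) = 0)
    (Y : Fin k → Matrix (Fin n) (Fin n) ℂ) (hY : ∀ l, Y l ∈ 𝔤) (x : Fin k → ℝ) (hx : ∀ l, x₀ < x l ∧ C < x l) :
    vG G (fun l => 1 / (x l : ℂ)) (fun l => NormedSpace.exp (Y l) * cP Ω Z (x l)) = 0 := by
  classical
  have key : ∀ J : Finset (Fin k), ∀ Y : Fin k → Matrix (Fin n) (Fin n) ℂ, (∀ l, Y l ∈ 𝔤) → (∀ l, l ∉ J → Y l = 0) →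
      ∀ x : Fin k → ℝ, (∀ l, x₀ < x l ∧ C < x l) →
      vG G (fun l => 1 / (x l : ℂ)) (fun l => NormedSpace.exp (Y l) * cP Ω Z (x l)) = 0 := by
    intro J
    induction J using Finset.induction_on with
    | empty =>
      intro Y _ hY0 x hx
      have h1 : (fun l => NormedSpace.exp (Y l) * cP Ω Z (x l)) = fun l => cP Ω Z (x l) := by
        funext l
        rw [hY0 l (Finset.notMem_empty _), NormedSpace.exp_zero, Matrix.one_mul]
      rw [h1]
      exact h x fun l => (hx l).1
    | insert a J ha ih =>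
      intro Y hY hY0 x hx
      let u : Fin k → ℂ := fun l => 1 / (x l : ℂ)
      let M : Fin k → Matrix (Fin n) (Fin n) ℂ := fun l => NormedSpace.exp (Y l) * cP Ω Z (x l)
      have h1 : ∀ t : ℝ, x₀ < t → C < t → vF (sl G a u M) (1 / (t : ℂ)) (cP Ω Z t) = 0 := by
        intro t ht1 ht2
        have h2 := ih (Function.update Y a 0) (fun l => by
          rcases eq_or_ne l a with rfl | hl
          · rw [Function.update_self]; exact 𝔤.zero_mem
          · rw [Function.update_of_ne hl]; exact hY l) (fun l hl => by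
          rcases eq_or_ne l a with rfl | hla
          · rw [Function.update_self]
          · rw [Function.update_of_ne hla]
            exact hY0 l (by simp [hla, hl])) (Function.update x a t) (fun l => by
          rcases eq_or_ne l a with rfl | hl
          · rw [Function.update_self]; exact ⟨ht1, ht2⟩
          · rw [Function.update_of_ne hl]; exact hx l)
        rw [vF_sl, ← h2]
        congr 1
        · funext l
          rcases eq_or_ne l a with rfl | hl
          · rw [Function.update_self, Function.update_self]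
          · rw [Function.update_of_ne hl, Function.update_of_ne hl]
        · funext l
          rcases eq_or_ne l a with rfl | hl
          · rw [Function.update_self, Function.update_self, Function.update_self, NormedSpace.exp_zero,
              Matrix.one_mul]
          · rw [Function.update_of_ne hl, Function.update_of_ne hl, Function.update_of_ne hl]
      have h3 : ∀ᶠ t : ℝ in atTop, vF (sl G a u M) (1 / (t : ℂ)) (cP Ω Z t) = 0 := by
        filter_upwards [eventually_gt_atTop x₀, eventually_gt_atTop C] with t ht1 ht2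
        exact h1 t ht1 ht2
      have h4 := all_of_large hC hZ (NormedSpace.exp (Y a)) _ (hs _ h3 (Y a) (hY a)) (hx a).2
      rw [vF_sl] at h4
      have e1 : Function.update u a (1 / (x a : ℂ)) = u := Function.update_eq_self _ _
      have e2 : Function.update M a (NormedSpace.exp (Y a) * cP Ω Z (x a)) = M := Function.update_eq_self _ _
      rw [e1, e2] at h4
      exact h4
  exact key Finset.univ Y hY (fun l hl => absurd (Finset.mem_univ l) hl) x hx

end Pool.Agent.W2helper33.BD

end
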