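import Pool.Agent.W2helper33.BD.Fam

/-!
# The relations between the periods of several members of a family
-/

set_option autoImplicit false
set_option linter.unusedSectionVars false

open Matrix Module Filter Topology

noncomputable section

namespace Pool.Agent.W2helper33.BD

open Pool.Agent.Y113.GG Pool.Agent.Y123.ST Pool.Agent.W2helper33.OQ Pool.Agent.TH127.PT

variable {n k : ℕ}

section exp

attribute [local instance] Matrix.linftyOpNormedRing Matrix.linftyOpNormedAlgebra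

theorem pi_exp (Y : Fin k → Matrix (Fin n) (Fin n) ℂ) (l : Fin k) :
    NormedSpace.exp Y l = NormedSpace.exp (Y l) := by
  let _ : NormedAlgebra ℚ (Matrix (Fin n) (Fin n) ℂ) := Matrix.linftyOpNormedAlgebra
  have h : CompleteSpace (Matrix (Fin n) (Fin n) ℂ) := inferInstance
  exact @Pi.coe_exp (Fin k) (fun _ => Matrix (Fin n) (Fin n) ℂ) _ _ _ (fun _ => h) Y l

end exp

theorem exp_bd (Y : Fin k → Matrix (Fin n) (Fin n) ℂ) :
    NormedSpace.exp (blockDiagonal Y) = blockDiagonal fun l => NormedSpace.exp (Y l) := by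
  rw [Matrix.exp_blockDiagonal]
  congr 1
  funext l
  exact pi_exp Y l

/-- The block diagonal matrices with blocks in `𝔤`. -/
def bdS (k : ℕ) (𝔤 : Submodule ℂ (Matrix (Fin n) (Fin n) ℂ)) :
    Submodule ℂ (Matrix (Fin n × Fin k) (Fin n × Fin k) ℂ) where
  carrier := {W | ∃ Y : Fin k → Matrix (Fin n) (Fin n) ℂ, (∀ l, Y l ∈ 𝔤) ∧ W = blockDiagonal Y}
  zero_mem' := ⟨0, fun _ => 𝔤.zero_mem, blockDiagonal_zero.symm⟩
  add_mem' := by
    rintro _ _ ⟨Y, hY, rfl⟩ ⟨Y', hY', rfl⟩
    exact ⟨Y + Y', fun l => 𝔤.add_mem (hY l) (hY' l), (blockDiagonal_add _ _).symm⟩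
  smul_mem' := by
    rintro a _ ⟨Y, hY, rfl⟩
    exact ⟨a • Y, fun l => 𝔤.smul_mem a (hY l), (blockDiagonal_smul _ _).symm⟩

theorem bd_sum (Y : Fin k → Matrix (Fin n) (Fin n) ℂ) :
    blockDiagonal Y = ∑ l, blockDiagonal (Pi.single l (Y l)) := by
  have h1 : (blockDiagonal (∑ l, Pi.single l (Y l)) : Matrix (Fin n × Fin k) (Fin n × Fin k) ℂ) =
      ∑ l, blockDiagonal (Pi.single l (Y l)) :=
    map_sum (Matrix.blockDiagonalAddMonoidHom (Fin n) (Fin n) (Fin k) ℂ) _ _
  rw [← h1, Finset.univ_sum_single]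

theorem bdS_perf {𝔤 : Submodule ℂ (Matrix (Fin n) (Fin n) ℂ)} (h : Perf 𝔤) : Perf (bdS k 𝔤) := by
  rintro _ ⟨Y, hY, rfl⟩
  rw [bd_sum]
  refine Submodule.sum_mem _ fun l _ => ?_
  have h1 := h _ (hY l)
  have hlin : ∀ Z : Matrix (Fin n) (Fin n) ℂ, Z ∈ Submodule.span ℂ {W | ∃ X ∈ 𝔤, ∃ Y ∈ 𝔤, W = X * Y - Y * X} →
      (blockDiagonal (Pi.single l Z) : Matrix (Fin n × Fin k) (Fin n × Fin k) ℂ) ∈
        Submodule.span ℂ {W | ∃ X ∈ bdS k 𝔤, ∃ Y ∈ bdS k 𝔤, W = X * Y - Y * X} := by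
    intro Z hZ
    induction hZ using Submodule.span_induction with
    | mem Z hZ =>
      obtain ⟨X, hX, Y, hY, rfl⟩ := hZ
      have hmem : ∀ X ∈ 𝔤, (blockDiagonal (Pi.single l X) : Matrix (Fin n × Fin k) (Fin n × Fin k) ℂ) ∈ bdS k 𝔤 := by
        intro X hX
        refine ⟨Pi.single l X, fun l' => ?_, rfl⟩
        rcases eq_or_ne l' l with rfl | hl
        · rw [Pi.single_eq_same]; exact hX
        · rw [Pi.single_eq_of_ne hl]; exact 𝔤.zero_mem
      refine Submodule.subset_span ⟨_, hmem X hX, _, hmem Y hY, ?_⟩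
      rw [← blockDiagonal_mul, ← blockDiagonal_mul, ← blockDiagonal_sub]
      congr 1
      funext l'
      rcases eq_or_ne l' l with rfl | hl
      · simp
      · simp [Pi.single_eq_of_ne hl]
    | zero =>
      rw [Pi.single_zero, blockDiagonal_zero]
      exact Submodule.zero_mem _
    | add a b _ _ ha hb =>
      rw [Pi.single_add, blockDiagonal_add]
      exact Submodule.add_mem _ ha hb
    | smul t a _ ha =>
      rw [Pi.single_smul, blockDiagonal_smul]
      exact Submodule.smul_mem _ t ha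
  exact hlin _ h1

/-! ### Restriction of polynomials to block diagonal matrices -/

/-- The restriction of a polynomial to block diagonal matrices. -/
def rs (R : Type) [CommRing R] (n k : ℕ) : MvPolynomial ((Fin n × Fin k) × (Fin n × Fin k)) R →ₐ[R]
    MvPolynomial (Fin k × (Fin n × Fin n)) R :=
  MvPolynomial.aeval fun b => if b.1.2 = b.2.2 then MvPolynomial.X (b.1.2, (b.1.1, b.2.1)) else 0

theorem eval_rs (p : MvPolynomial ((Fin n × Fin k) × (Fin n × Fin k)) ℂ) (M : Fin k → Matrix (Fin n) (Fin n) ℂ) :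
    MvPolynomial.eval (fun q : Fin k × (Fin n × Fin n) => M q.1 q.2.1 q.2.2) (rs ℂ n k p) =
      MvPolynomial.eval (fl (blockDiagonal M)) p := by
  induction p using MvPolynomial.induction_on with
  | C a =>
    unfold rs
    simp
  | add p q hp hq => rw [map_add, map_add, map_add, hp, hq]
  | mul_X p b hp =>
    rw [map_mul, map_mul, map_mul, hp]
    congr 1
    unfold rs
    rw [MvPolynomial.aeval_X, MvPolynomial.eval_X]
    change _ = blockDiagonal M b.1 b.2
    rw [blockDiagonal_apply]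
    split_ifs
    · rw [MvPolynomial.eval_X]
    · rw [map_zero]

theorem rs_map (p : MvPolynomial ((Fin n × Fin k) × (Fin n × Fin k)) ℚ) :
    rs ℂ n k (MvPolynomial.map (algebraMap ℚ ℂ) p) = MvPolynomial.map (algebraMap ℚ ℂ) (rs ℚ n k p) := by
  induction p using MvPolynomial.induction_on with
  | C a =>
    unfold rs
    simp
  | add p q hp hq => rw [map_add, map_add, hp, hq, map_add, map_add]
  | mul_X p b hp =>
    rw [map_mul, map_mul, hp, map_mul, map_mul]
    congr 1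
    unfold rs
    rw [MvPolynomial.map_X, MvPolynomial.aeval_X, MvPolynomial.aeval_X]
    split_ifs
    · rw [MvPolynomial.map_X]
    · rw [map_zero]

theorem deg_rs (R : Type) [CommRing R] (p : MvPolynomial ((Fin n × Fin k) × (Fin n × Fin k)) R) :
    (rs R n k p).totalDegree ≤ p.totalDegree := by
  unfold rs
  rw [MvPolynomial.aeval_def, MvPolynomial.eval₂_eq]
  refine (MvPolynomial.totalDegree_finsetSum _ _).trans (Finset.sup_le fun m hm => ?_)
  refine (MvPolynomial.totalDegree_mul _ _).trans ?_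
  rw [MvPolynomial.algebraMap_eq, MvPolynomial.totalDegree_C, zero_add]
  refine (MvPolynomial.totalDegree_finsetProd _ _).trans ?_
  refine le_trans (Finset.sum_le_sum (g := fun b => m b) fun b _ => ?_) (MvPolynomial.le_totalDegree hm)
  refine (MvPolynomial.totalDegree_pow _ _).trans ?_
  have h1 : ((if b.1.2 = b.2.2 then MvPolynomial.X (b.1.2, (b.1.1, b.2.1)) else 0 :
      MvPolynomial (Fin k × (Fin n × Fin n)) R)).totalDegree ≤ 1 := by
    split_ifs
    · exact (MvPolynomial.totalDegree_monomial_le _ _).trans (by simp)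
    · rw [MvPolynomial.totalDegree_zero]; exact Nat.zero_le _
  calc m b * _ ≤ m b * 1 := Nat.mul_le_mul_left _ h1
    _ = m b := mul_one _


/-- Polynomials with coefficients in the prime field. -/
theorem exists_rat (p : MvPolynomial ((Fin n × Fin k) × (Fin n × Fin k)) ℂ) (hp : ∀ m, p.coeff m ∈ (⊥ : Subfield ℂ)) :
    ∃ q : MvPolynomial ((Fin n × Fin k) × (Fin n × Fin k)) ℚ, MvPolynomial.map (algebraMap ℚ ℂ) q = p := by
  classical
  have h1 : ∀ z ∈ (⊥ : Subfield ℂ), ∃ q : ℚ, (q : ℂ) = z := by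
    intro z hz
    have h2 : (⊥ : Subfield ℂ) ≤ (algebraMap ℚ ℂ).fieldRange := bot_le
    obtain ⟨q, hq⟩ := h2 hz
    exact ⟨q, hq⟩
  choose q hq using fun m => h1 _ (hp m)
  refine ⟨∑ m ∈ p.support, MvPolynomial.monomial m (q m), ?_⟩
  rw [map_sum]
  conv_rhs => rw [p.as_sum]
  refine Finset.sum_congr rfl fun m _ => ?_
  rw [MvPolynomial.map_monomial]
  congr 1
  exact hq m

/-- The line of the rational numbers. -/
def VQ : Submodule ℚ ℂ := LinearMap.range (Algebra.linearMap ℚ ℂ)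

theorem VQ_fin : Module.Finite ℚ VQ ∧ Module.finrank ℚ VQ ≤ 1 := by
  unfold VQ
  refine ⟨inferInstance, ?_⟩
  have h1 := LinearMap.finrank_range_le (Algebra.linearMap ℚ ℂ)
  rwa [Module.finrank_self] at h1

theorem ev_sub (u : Fin k → ℂ) (y : Fin k × (Fin n × Fin n) → ℂ) (F : MvPolynomial (Fin k ⊕ (Fin k × (Fin n × Fin n))) ℂ) :
    MvPolynomial.eval y (MvPolynomial.aeval (Sum.elim (fun l => MvPolynomial.C (u l)) MvPolynomial.X) F) =
      MvPolynomial.eval (Sum.elim u y) F := by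
  induction F using MvPolynomial.induction_on with
  | C a => simp
  | add p q hp hq => rw [map_add, map_add, map_add, hp, hq]
  | mul_X p b hp =>
    rw [map_mul, map_mul, map_mul, hp]
    congr 1
    rw [MvPolynomial.aeval_X, MvPolynomial.eval_X]
    rcases b with l | q
    · simp
    · simp

/-- **The relations over the rational numbers** between the periods of several members of the family. -/
theorem relTo_fam {Ω : Matrix (Fin n) (Fin n) ℂ} {Z : Fin n → Fin n → PowerSeries ℚ}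
    {𝔤 : Submodule ℂ (Matrix (Fin n) (Fin n) ℂ)} {C : ℝ} (hC : 0 < C)
    (hZ : ∀ i j m, |((PowerSeries.coeff m (Z i j) : ℚ) : ℝ)| ≤ C ^ (m + 1)) (hs : IsSym Ω Z 𝔤) {x₀ : ℝ} {δ : ℕ}
    {m : Fin k → ℕ} (hm : ∀ l, x₀ < m l ∧ C < m l) (hspec : Spec Ω Z x₀ δ VQ m) :
    ∀ X ∈ bdS k 𝔤, RelTo ⊥ δ (blockDiagonal fun l => cP Ω Z (m l))
      (NormedSpace.exp X * blockDiagonal fun l => cP Ω Z (m l)) := by
  rintro _ ⟨Y, hY, rfl⟩ p hp hpd hpc
  obtain ⟨q, rfl⟩ := exists_rat p hp
  have hcoef : ∀ s, (rs ℂ n k (MvPolynomial.map (algebraMap ℚ ℂ) q)).coeff s ∈ VQ := by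
    intro s
    rw [rs_map, MvPolynomial.coeff_map]
    exact ⟨_, rfl⟩
  have hev : ∀ M : Fin k → Matrix (Fin n) (Fin n) ℂ, MvPolynomial.eval (fl (blockDiagonal M))
      (MvPolynomial.map (algebraMap ℚ ℂ) q) = MvPolynomial.eval (fun q : Fin k × (Fin n × Fin n) => M q.1 q.2.1 q.2.2)
      (rs ℂ n k (MvPolynomial.map (algebraMap ℚ ℂ) q)) := fun M => (eval_rs _ M).symm
  obtain ⟨F, hF1, hF2⟩ := hspec (rs ℂ n k (MvPolynomial.map (algebraMap ℚ ℂ) q)) ((deg_rs ℂ _).trans hpd) hcoef (by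
    rw [hev] at hpc
    exact hpc)
  have h1 := multi hC hZ hs F (x₀ := x₀) (fun x hx => by
    have h2 := hF1 x hx
    unfold vG
    rw [← h2, MvPolynomial.aeval_eq_eval]
    congr 2
    funext i
    rcases i with l | p
    · simp
    · rfl) Y hY (fun l => (m l : ℝ)) hm
  rw [exp_bd, ← blockDiagonal_mul, hev, ← hF2]
  have h3 := ev_sub (fun l => ((1 / (m l : ℝ) : ℝ) : ℂ))
    (fun q : Fin k × (Fin n × Fin n) => (NormedSpace.exp (Y q.1) * cP Ω Z (m q.1)) q.2.1 q.2.2) F
  rw [h3, ← h1]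
  unfold vG
  congr 2
  funext l
  push_cast
  rfl

end Pool.Agent.W2helper33.BD

end
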