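import Pool.Agent.W2helper33.BD.Crit

/-!
# From relations over the rational numbers to relations over number fields of bounded degree
-/

set_option autoImplicit false
set_option linter.unusedSectionVars false

open Matrix MvPolynomial Module

noncomputable section

namespace Pool.Agent.W2helper33.BD

open Pool.Agent.TH127.PT Pool.Agent.TH119.MX Pool.Agent.TH119.DR Pool.Agent.Y123.ST Pool.Agent.W2helper33.OQ

/-! ### The normal closure -/

theorem finrank_sup_fin {ι : Type} [DecidableEq ι] (s : Finset ι) (E : ι → IntermediateField ℚ ℂ) {D : ℕ}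
    (hE : ∀ i, FiniteDimensional ℚ (E i)) (hD : ∀ i, finrank ℚ (E i) ≤ D) :
    FiniteDimensional ℚ (s.sup E : IntermediateField ℚ ℂ) ∧ finrank ℚ (s.sup E : IntermediateField ℚ ℂ) ≤ D ^ s.card := by
  induction s using Finset.induction_on with
  | empty =>
    rw [Finset.sup_empty, Finset.card_empty, pow_zero]
    exact ⟨inferInstance, by rw [IntermediateField.finrank_bot]⟩
  | insert a s ha ih =>
    obtain ⟨h1, h2⟩ := ih
    have := hE a
    rw [Finset.sup_insert, Finset.card_insert_of_notMem ha, pow_succ]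
    refine ⟨IntermediateField.finiteDimensional_sup _ _, ?_⟩
    refine (IntermediateField.finrank_sup_le _ _).trans ?_
    rw [mul_comm]
    exact Nat.mul_le_mul h2 (hD a)

theorem exists_normal (K : Subfield ℂ) [FiniteDimensional ℚ K] {D : ℕ} (hD : finrank ℚ K ≤ D) :
    ∃ F : IntermediateField ℚ ℂ, FiniteDimensional ℚ F ∧ Normal ℚ F ∧ finrank ℚ F ≤ D ^ D ∧ ∀ x ∈ K, x ∈ F := by
  classical
  let K1 : IntermediateField ℚ ℂ :=
    { K with
      algebraMap_mem' := fun q => SubfieldClass.ratCast_mem K q }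
  let e : K ≃+* K1 := RingEquiv.refl _
  let eL : K ≃ₗ[ℚ] K1 := (e.toRatAlgEquiv).toLinearEquiv
  have hfin : FiniteDimensional ℚ K1 := eL.finiteDimensional
  have hrk : finrank ℚ K1 = finrank ℚ K := eL.finrank_eq.symm
  have hcard : Fintype.card (K1 →ₐ[ℚ] ℂ) = finrank ℚ K1 := AlgHom.card ℚ K1 ℂ
  let F : IntermediateField ℚ ℂ := (Finset.univ : Finset (K1 →ₐ[ℚ] ℂ)).sup fun f => f.fieldRange
  have hF : F = IntermediateField.normalClosure ℚ K1 ℂ := Finset.sup_univ_eq_iSup _
  have hr : ∀ f : K1 →ₐ[ℚ] ℂ, FiniteDimensional ℚ f.fieldRange ∧ finrank ℚ f.fieldRange ≤ D := by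
    intro f
    let g : K1 ≃ₐ[ℚ] f.fieldRange := AlgEquiv.ofInjectiveField f
    exact ⟨g.toLinearEquiv.finiteDimensional, by rw [← g.toLinearEquiv.finrank_eq, hrk]; exact hD⟩
  obtain ⟨h1, h2⟩ := finrank_sup_fin (Finset.univ : Finset (K1 →ₐ[ℚ] ℂ)) (fun f => f.fieldRange)
    (fun f => (hr f).1) fun f => (hr f).2
  have hD0 : 0 < D := lt_of_lt_of_le (by rw [← hrk]; exact finrank_pos) hD
  refine ⟨F, h1, ?_, h2.trans ?_, fun x hx => ?_⟩
  · rw [hF]
    exact (Algebra.IsAlgebraic.isNormalClosure_normalClosure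
      (fun x => IsAlgClosed.splits _)).normal
  · rw [Finset.card_univ, hcard, hrk]
    exact Nat.pow_le_pow_right hD0 hD
  · have h3 : (K1.val).fieldRange ≤ F := Finset.le_sup (f := fun f : K1 →ₐ[ℚ] ℂ => f.fieldRange) (Finset.mem_univ _)
    exact h3 ⟨(⟨x, hx⟩ : K1), rfl⟩

/-- Numbers which are fixed by all automorphisms are rational. -/
theorem rat_of_fixed {z : ℂ} (h : ∀ σ : ℂ ≃+* ℂ, σ z = z) : z ∈ (⊥ : Subfield ℂ) := by
  by_contra hz
  by_cases ha : IsAlgebraic (⊥ : Subfield ℂ) z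
  · obtain ⟨σ, -, hσ⟩ := move_alg ha hz
    exact hσ (h σ)
  · obtain ⟨σ, -, hσ⟩ := move_transc ha
    exact hσ (h σ)


/-! ### Analytic functions on a Lie algebra -/

section an

attribute [local instance] Matrix.linftyOpNormedRing Matrix.linftyOpNormedAlgebra

theorem differentiable_exp_line {N : Type} [Fintype N] [DecidableEq N] (X Y c : Matrix N N ℂ) (b : N × N) :
    Differentiable ℂ (fun t : ℂ => fl (NormedSpace.exp (X + t • Y) * c) b) := by
  intro t
  have h1 : DifferentiableAt ℂ (NormedSpace.exp : Matrix N N ℂ → Matrix N N ℂ) (X + t • Y) :=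
    (NormedSpace.exp_analytic (𝕂 := ℂ) (X + t • Y)).differentiableAt
  have h2 : DifferentiableAt ℂ (fun t : ℂ => X + t • Y) t := by fun_prop
  have h3 : DifferentiableAt ℂ (fun t : ℂ => NormedSpace.exp (X + t • Y)) t := h1.comp t h2
  let l : Matrix N N ℂ →ₗ[ℂ] ℂ := (Matrix.entryLinearMap ℂ ℂ b.1 b.2).comp (LinearMap.mulRight ℂ c)
  exact (LinearMap.toContinuousLinearMap l).differentiableAt.comp t h3

end an

variable {N : Type} [Fintype N] [DecidableEq N]

theorem differentiable_eval {B : Type*} {y : ℂ → B → ℂ} (hy : ∀ b, Differentiable ℂ (fun s => y s b))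
    (P : MvPolynomial B ℂ) : Differentiable ℂ (fun s => eval (y s) P) := by
  induction P using MvPolynomial.induction_on with
  | C a =>
    simp only [eval_C]
    exact differentiable_const a
  | add p q hp hq =>
    simp only [map_add]
    exact hp.add hq
  | mul_X p b hp =>
    simp only [map_mul, eval_X]
    exact hp.mul (hy b)

/-- Functions which are analytic on all lines: there are no zero divisors. -/
theorem prod_zero {𝔤 : Submodule ℂ (Matrix N N ℂ)} {ι : Type} [DecidableEq ι] (s : Finset ι)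
    (f : ι → Matrix N N ℂ → ℂ) (hf : ∀ i X Y, Differentiable ℂ (fun t : ℂ => f i (X + t • Y)))
    (h : ∀ X ∈ 𝔤, ∏ i ∈ s, f i X = 0) : ∃ i ∈ s, ∀ X ∈ 𝔤, f i X = 0 := by
  induction s using Finset.induction_on with
  | empty =>
    have h1 := h 0 𝔤.zero_mem
    rw [Finset.prod_empty] at h1
    exact absurd h1 one_ne_zero
  | insert a s ha ih =>
    by_cases hcon : ∀ X ∈ 𝔤, f a X = 0
    · exact ⟨a, Finset.mem_insert_self _ _, hcon⟩
    push Not at hcon
    obtain ⟨X1, hX1, hne⟩ := hcon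
    obtain ⟨i, hi, h1⟩ := ih (fun X2 hX2 => by
      let F : ℂ → ℂ := fun t => f a (X1 + t • (X2 - X1))
      let G : ℂ → ℂ := fun t => ∏ i ∈ s, f i (X1 + t • (X2 - X1))
      have hF : AnalyticOnNhd ℂ F Set.univ := fun t _ => (hf a X1 (X2 - X1)).analyticAt t
      have hG' : Differentiable ℂ G := Differentiable.fun_finsetProd fun i _ => hf i X1 (X2 - X1)
      have hG : AnalyticOnNhd ℂ G Set.univ := fun t _ => hG'.analyticAt t
      have hFG : ∀ t ∈ Set.univ, F t * G t = 0 := by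
        intro t _
        have h2 := h (X1 + t • (X2 - X1)) (𝔤.add_mem hX1 (𝔤.smul_mem t (𝔤.sub_mem hX2 hX1)))
        rw [Finset.prod_insert ha] at h2
        exact h2
      rcases AnalyticOnNhd.eq_zero_or_eq_zero_of_mul_eq_zero hF hG hFG isPreconnected_univ with h3 | h3
      · exfalso
        apply hne
        have h4 := h3 0 (Set.mem_univ _)
        simpa [F] using h4
      · have h4 := h3 1 (Set.mem_univ _)
        simpa [G] using h4)
    exact ⟨i, Finset.mem_insert_of_mem hi, h1⟩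

/-! ### The norm -/

section norm

variable {F : IntermediateField ℚ ℂ} [FiniteDimensional ℚ F]

theorem deg_map_le {R S : Type} [CommRing R] [CommRing S] (f : R →+* S) (P : MvPolynomial (N × N) R) :
    (P.map f).totalDegree ≤ P.totalDegree := Finset.sup_mono (support_map_subset f P)

/-- The norm of a polynomial. -/
def Nm (P : MvPolynomial (N × N) F) : MvPolynomial (N × N) ℂ := ∏ τ : F →ₐ[ℚ] ℂ, P.map (τ : F →+* ℂ)

theorem Nm_rat (P : MvPolynomial (N × N) F) (m : (N × N) →₀ ℕ) : (Nm P).coeff m ∈ (⊥ : Subfield ℂ) := by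
  refine rat_of_fixed fun σ => ?_
  have h1 : (Nm P).map (σ : ℂ →+* ℂ) = Nm P := by
    unfold Nm
    rw [map_prod]
    let e : (F →ₐ[ℚ] ℂ) ≃ (F →ₐ[ℚ] ℂ) := AlgEquiv.arrowCongr AlgEquiv.refl σ.toRatAlgEquiv
    refine Fintype.prod_equiv e _ _ fun τ => ?_
    rw [MvPolynomial.map_map]
    rfl
  conv_rhs => rw [← h1]
  rw [coeff_map]
  rfl

theorem Nm_deg {P : MvPolynomial (N × N) F} {d : ℕ} (hP : P.totalDegree ≤ d) :
    (Nm P).totalDegree ≤ d * finrank ℚ F := by
  unfold Nm
  refine (totalDegree_finsetProd _ _).trans ?_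
  refine (Finset.sum_le_card_nsmul _ _ d fun τ _ => ?_).trans ?_
  · exact (deg_map_le _ _).trans hP
  · rw [Finset.card_univ, AlgHom.card, smul_eq_mul, mul_comm]


/-- A polynomial with coefficients in the field. -/
theorem exists_lift (p : MvPolynomial (N × N) ℂ) (hp : ∀ m, p.coeff m ∈ F) :
    ∃ P : MvPolynomial (N × N) F, P.map (algebraMap F ℂ) = p ∧ P.totalDegree ≤ p.totalDegree := by
  classical
  refine ⟨∑ m ∈ p.support, monomial m (⟨p.coeff m, hp m⟩ : F), ?_, ?_⟩
  · rw [map_sum]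
    conv_rhs => rw [p.as_sum]
    refine Finset.sum_congr rfl fun m _ => ?_
    rw [map_monomial]
    rfl
  · refine (totalDegree_finsetSum _ _).trans (Finset.sup_le fun m hm => ?_)
    exact (totalDegree_monomial_le _ _).trans (le_totalDegree hm)

/-- **From relations over the rational numbers to relations over a normal number field.** -/
theorem relTo_normal [Normal ℚ F] {𝔤 : Submodule ℂ (Matrix N N ℂ)} {c : Matrix N N ℂ} {d e : ℕ}
    (he : d * finrank ℚ F ≤ e) (h : ∀ X ∈ 𝔤, RelTo ⊥ e c (NormedSpace.exp X * c))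
    {p : MvPolynomial (N × N) ℂ} (hp : ∀ m, p.coeff m ∈ F) (hpd : p.totalDegree ≤ d) (hpc : eval (fl c) p = 0)
    {X : Matrix N N ℂ} (hX : X ∈ 𝔤) : eval (fl (NormedSpace.exp X * c)) p = 0 := by
  classical
  obtain ⟨P0, hP0, hP0d⟩ := exists_lift p hp
  have hval : ∀ (τ : F →ₐ[ℚ] ℂ) (P : MvPolynomial (N × N) F), ∀ X Y, Differentiable ℂ
      (fun t : ℂ => eval (fl (NormedSpace.exp (X + t • Y) * c)) (P.map (τ : F →+* ℂ))) := fun τ P X Y =>
    differentiable_eval (fun b => differentiable_exp_line X Y c b) _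
  -- the space of the relations
  let W : Submodule ℚ (MvPolynomial (N × N) F) :=
    { carrier := {P | P.totalDegree ≤ d ∧ eval (fl c) (P.map (algebraMap F ℂ)) = 0}
      zero_mem' := ⟨by rw [totalDegree_zero]; exact Nat.zero_le _, by rw [map_zero, map_zero]⟩
      add_mem' := by
        rintro P Q ⟨h1, h2⟩ ⟨h3, h4⟩
        exact ⟨(totalDegree_add _ _).trans (max_le h1 h3), by rw [map_add, map_add, h2, h4, add_zero]⟩
      smul_mem' := by
        rintro q P ⟨h1, h2⟩
        refine ⟨(totalDegree_smul_le _ _).trans h1, ?_⟩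
        have h3 : q • P = C (algebraMap ℚ F q) * P := by
          rw [← smul_eq_C_mul, algebraMap_smul]
        rw [h3, map_mul, map_mul, h2, mul_zero] }
  have h0W : P0 ∈ W := ⟨hP0d.trans hpd, by rw [hP0]; exact hpc⟩
  let V : (F →ₐ[ℚ] ℂ) → Submodule ℚ W := fun τ =>
    { carrier := {P | ∀ X ∈ 𝔤, eval (fl (NormedSpace.exp X * c)) ((P : MvPolynomial (N × N) F).map (τ : F →+* ℂ)) = 0}
      zero_mem' := fun X _ => by
        change eval _ ((0 : MvPolynomial (N × N) F).map _) = 0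
        rw [map_zero, map_zero]
      add_mem' := by
        intro P Q h1 h2 X hX
        change eval _ (((P : MvPolynomial (N × N) F) + (Q : MvPolynomial (N × N) F)).map _) = 0
        rw [map_add, map_add, h1 X hX, h2 X hX, add_zero]
      smul_mem' := by
        intro q P h1 X hX
        change eval _ ((q • (P : MvPolynomial (N × N) F)).map _) = 0
        have h3 : q • (P : MvPolynomial (N × N) F) = C (algebraMap ℚ F q) * (P : MvPolynomial (N × N) F) := by
          rw [← smul_eq_C_mul, algebraMap_smul]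
        rw [h3, map_mul, map_mul, h1 X hX, mul_zero] }
  have hcov : ⋃ τ, (V τ : Set W) = Set.univ := by
    refine Set.eq_univ_of_forall fun P => ?_
    rw [Set.mem_iUnion]
    have h1 : ∀ X ∈ 𝔤, ∏ τ ∈ (Finset.univ : Finset (F →ₐ[ℚ] ℂ)), eval (fl (NormedSpace.exp X * c))
        ((P : MvPolynomial (N × N) F).map (τ : F →+* ℂ)) = 0 := by
      intro X hX
      have h2 := h X hX (Nm (P : MvPolynomial (N × N) F)) (Nm_rat _) ((Nm_deg P.2.1).trans he) (by
        unfold Nm
        rw [map_prod]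
        refine Finset.prod_eq_zero (Finset.mem_univ F.val) ?_
        exact P.2.2)
      unfold Nm at h2
      rw [map_prod] at h2
      exact h2
    obtain ⟨τ, -, h3⟩ := prod_zero Finset.univ (fun (τ : F →ₐ[ℚ] ℂ) X => eval (fl (NormedSpace.exp X * c))
      ((P : MvPolynomial (N × N) F).map (τ : F →+* ℂ))) (fun τ X Y => hval τ P X Y) h1
    exact ⟨τ, h3⟩
  obtain ⟨τ, hτ⟩ := Subspace.exists_eq_top_of_iUnion_eq_univ (k := ℚ) (E := W) (p := V) hcov
  have hall : ∀ P ∈ W, ∀ X ∈ 𝔤, eval (fl (NormedSpace.exp X * c)) (P.map (τ : F →+* ℂ)) = 0 := by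
    intro P hP X hX
    have h1 : (⟨P, hP⟩ : W) ∈ V τ := by
      rw [hτ]
      exact Submodule.mem_top
    exact h1 X hX
  -- the automorphism
  let θ : F ≃ₐ[ℚ] F := τ.restrictNormal' F
  have hθ : ∀ x : F, ((θ x : F) : ℂ) = τ x := fun x => τ.restrictNormal_commutes F x
  have hmap : ∀ P : MvPolynomial (N × N) F, P.map (τ : F →+* ℂ) = (P.map ((θ : F →ₐ[ℚ] F) : F →+* F)).map
      (algebraMap F ℂ) := by
    intro P
    rw [MvPolynomial.map_map]
    have h1 : (τ : F →+* ℂ) = (algebraMap F ℂ).comp ((θ : F →ₐ[ℚ] F) : F →+* F) := RingHom.ext fun x => (hθ x).symm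
    rw [h1]
  have hstep : ∀ P ∈ W, P.map ((θ : F →ₐ[ℚ] F) : F →+* F) ∈ W := by
    intro P hP
    refine ⟨(deg_map_le _ _).trans hP.1, ?_⟩
    rw [← hmap]
    have h1 := hall P hP 0 𝔤.zero_mem
    rwa [NormedSpace.exp_zero, Matrix.one_mul] at h1
  have hpow : ∀ k : ℕ, ∀ P ∈ W, P.map (((θ ^ k : F ≃ₐ[ℚ] F) : F →ₐ[ℚ] F) : F →+* F) ∈ W := by
    intro k
    induction k with
    | zero =>
      intro P hP
      have h1 : (((θ ^ 0 : F ≃ₐ[ℚ] F) : F →ₐ[ℚ] F) : F →+* F) = RingHom.id F := by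
        ext x
        simp
      rw [h1, MvPolynomial.map_id]
      exact hP
    | succ k ih =>
      intro P hP
      have h1 := hstep _ (ih P hP)
      rw [MvPolynomial.map_map] at h1
      have h2 : ((θ : F →ₐ[ℚ] F) : F →+* F).comp (((θ ^ k : F ≃ₐ[ℚ] F) : F →ₐ[ℚ] F) : F →+* F) =
          (((θ ^ (k + 1) : F ≃ₐ[ℚ] F) : F →ₐ[ℚ] F) : F →+* F) := by
        ext x
        rw [pow_succ']
        rfl
      rwa [h2] at h1
  have hfin : IsOfFinOrder θ := isOfFinOrder_of_finite θ
  obtain ⟨k, hk0, hk⟩ := hfin.exists_pow_eq_one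
  obtain ⟨k, rfl⟩ : ∃ k', k = k' + 1 := ⟨k - 1, by omega⟩
  have h1 := hall _ (hpow k P0 h0W) X hX
  rw [hmap] at h1
  have h2 : ((θ : F →ₐ[ℚ] F) : F →+* F).comp (((θ ^ k : F ≃ₐ[ℚ] F) : F →ₐ[ℚ] F) : F →+* F) = RingHom.id F := by
    ext x
    have h3 : (θ ^ (k + 1)) x = x := by rw [hk]; rfl
    rw [pow_succ'] at h3
    exact congrArg (fun y : F => (y : ℂ)) h3
  have h4 : (P0.map (((θ ^ k : F ≃ₐ[ℚ] F) : F →ₐ[ℚ] F) : F →+* F)).map ((θ : F →ₐ[ℚ] F) : F →+* F) = P0 := by
    rw [MvPolynomial.map_map, h2, MvPolynomial.map_id]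
  rw [h4, hP0] at h1
  exact h1

end norm

/-- **From relations over the rational numbers to relations over number fields.** -/
theorem relTo_of_rat {𝔤 : Submodule ℂ (Matrix N N ℂ)} {c : Matrix N N ℂ} {d D : ℕ}
    (h : ∀ X ∈ 𝔤, RelTo ⊥ (d * D ^ D) c (NormedSpace.exp X * c)) (K : Subfield ℂ) [FiniteDimensional ℚ K]
    (hD : finrank ℚ K ≤ D) {X : Matrix N N ℂ} (hX : X ∈ 𝔤) : RelTo K d c (NormedSpace.exp X * c) := by
  obtain ⟨F, hF1, hF2, hF3, hF4⟩ := exists_normal K hD
  intro p hp hpd hpc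
  exact relTo_normal (F := F) (Nat.mul_le_mul_left d hF3) h (fun m => hF4 _ (hp m)) hpd hpc hX

end Pool.Agent.W2helper33.BD

end
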