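import Pool.Agent.W2helper33.BD.Fam2
import Pool.Agent.W2helper33.BD.Norm

/-!
# The Lie algebra acts on all subtorsors through the periods of almost all members of a family
-/

set_option autoImplicit false
set_option linter.unusedSectionVars false

open Matrix Module Filter Topology

noncomputable section

namespace Pool.Agent.W2helper33.BD

open Pool.Agent.Y113.GG Pool.Agent.Y118.HG Pool.Agent.Y123.ST Pool.Agent.W2helper33.OQ Pool.Agent.TH127.PT

variable {n k : ℕ}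

/-- The degree in the criterion. -/
def dg (B : Type) [Fintype B] [DecidableEq B] : ℕ := JJ (Fintype.card B * Fintype.card B) * (1 + D0 B)

/-- The conclusion for a tuple of members of the family. -/
def Concl (Ω : Matrix (Fin n) (Fin n) ℂ) (Z : Fin n → Fin n → PowerSeries ℚ) (D : ℕ) (m : Fin k → ℕ) : Prop :=
  ∀ 𝔤 : Submodule ℂ (Matrix (Fin n) (Fin n) ℂ), Perf 𝔤 → IsSym Ω Z 𝔤 → ∀ K : Subfield ℂ, FiniteDimensional ℚ K →
    finrank ℚ K ≤ D → ∀ T : Set (Matrix (Fin n × Fin k) (Fin n × Fin k) ℂ), IsSubtorsor K T →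
      (blockDiagonal fun l => cP Ω Z (m l)) ∈ T → bdS k 𝔤 ≤ LM T

theorem alg_of_fin (K : Subfield ℂ) [FiniteDimensional ℚ K] : ∀ x ∈ K, IsAlgebraic ℚ x := by
  intro x hx
  have h6 : IsAlgebraic ℚ (⟨x, hx⟩ : K) := Algebra.IsAlgebraic.isAlgebraic _
  exact h6.algebraMap (A := ℂ)

theorem concl_of_spec {Ω : Matrix (Fin n) (Fin n) ℂ} {Z : Fin n → Fin n → PowerSeries ℚ} {C : ℝ} (hC : 0 < C)
    (hZ : ∀ i j m, |((PowerSeries.coeff m (Z i j) : ℚ) : ℝ)| ≤ C ^ (m + 1)) {x₀ : ℝ} {D : ℕ}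
    {m : Fin k → ℕ} (hm : ∀ l, x₀ < m l ∧ C < m l) (hspec : Spec Ω Z x₀ (dg (Fin n × Fin k) * D ^ D) VQ m) :
    Concl Ω Z D m := by
  intro 𝔤 hp hs K hK hKD T hT hcT
  have h1 := relTo_fam hC hZ hs hm hspec
  exact crit (alg_of_fin K) hT (d := dg (Fin n × Fin k)) le_rfl hcT (fun X hX => relTo_of_rat h1 K hKD hX)
    (bdS_perf hp)

open Classical in
theorem fam {f : Polynomial ℚ} {A : Fin n → Fin n → Polynomial ℚ} {Z W : Fin n → Fin n → PowerSeries ℚ}
    (h : Dat f A Z W) :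
    ∃ G : ℕ, ∀ k D : ℕ,
      (∃ M : ℕ, ∃ c : ℝ, 0 < c ∧ ∀ Ω : Matrix (Fin n) (Fin n) ℂ, IsUnit Ω → ∀ N : ℕ, 1 ≤ N →
        ∃ S : Finset ℕ, S.card ≤ M ∧ ∀ m : Fin k → ℕ, SepN G m →
          (∀ i, N ≤ m i ∧ (m i : ℝ) ≤ N + (N : ℝ) ^ c ∧ m i ∉ S) → Concl Ω Z D m) ∧
      ∃ c : ℝ, 0 < c ∧ ∃ C : ℝ, ∀ Ω : Matrix (Fin n) (Fin n) ℂ, IsUnit Ω → ∀ T : ℕ, 1 ≤ T →
        (((Fintype.piFinset fun _ : Fin k => Finset.Icc 2 T).filter fun m => ¬ Concl Ω Z D m).card : ℝ) ≤
          C * (T : ℝ) ^ ((k : ℝ) - c) := by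
  obtain ⟨C₀, hC₀, hZ, -⟩ := h.bound
  obtain ⟨x₀, G, hmain⟩ := main h
  obtain ⟨x₁, hx₁⟩ := exists_nat_ge (max (x₀ : ℝ) C₀)
  have hlarge : ∀ m : ℕ, x₁ < m → (x₀ : ℝ) < m ∧ C₀ < m := by
    intro m hm
    have h1 : (x₁ : ℝ) < m := by exact_mod_cast hm
    exact ⟨((le_max_left _ _).trans hx₁).trans_lt h1, ((le_max_right _ _).trans hx₁).trans_lt h1⟩
  have hC₀' : 0 < C₀ := by linarith
  have hconcl : ∀ (k D : ℕ) (Ω : Matrix (Fin n) (Fin n) ℂ) (m : Fin k → ℕ), (∀ l, x₁ < m l) →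
      Spec Ω Z x₀ (dg (Fin n × Fin k) * D ^ D) VQ m → Concl Ω Z D m :=
    fun k D Ω m hm hspec => concl_of_spec hC₀' hZ (fun l => hlarge _ (hm l)) hspec
  refine ⟨G, fun k D => ?_⟩
  obtain ⟨⟨M, E, hwin⟩, c, hc, C, hcount⟩ := hmain (dg (Fin n × Fin k) * D ^ D) k 1
  refine ⟨?_, ?_⟩
  · obtain ⟨c', hc', hconv⟩ := conv k G E M
    refine ⟨M + 3 + (x₁ + 1), c', hc', ?_⟩
    rintro _ ⟨u, rfl⟩ N hN
    obtain ⟨S, hS, hS'⟩ := hconv _ (hwin (u : Matrix (Fin n) (Fin n) ℂ) (u⁻¹ : _) u.mul_inv u.inv_mul VQ VQ_fin.1 VQ_fin.2) N hN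
    refine ⟨S ∪ Finset.range (x₁ + 1), (Finset.card_union_le _ _).trans ?_, fun m hm hmS => ?_⟩
    · rw [Finset.card_range]
      omega
    · refine hconcl k D _ m (fun l => ?_) (hS' m hm fun i => ⟨(hmS i).1, (hmS i).2.1, fun hi => (hmS i).2.2
        (Finset.mem_union_left _ hi)⟩)
      by_contra hl
      exact (hmS l).2.2 (Finset.mem_union_right _ (Finset.mem_range.2 (by omega)))
  · refine ⟨min c 1, lt_min hc one_pos, |C| + k * x₁, ?_⟩
    rintro _ ⟨u, rfl⟩ T hT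
    have h1 := hcount (u : Matrix (Fin n) (Fin n) ℂ) (u⁻¹ : _) u.mul_inv u.inv_mul VQ VQ_fin.1 VQ_fin.2 T hT
    have hT1 : (1 : ℝ) ≤ T := by exact_mod_cast hT
    have hT0 : (0 : ℝ) < T := by linarith
    -- the tuples with a small entry
    have h2 : (((Fintype.piFinset fun _ : Fin k => Finset.Icc 2 T).filter fun m => ¬ ∀ l, x₁ < m l).card : ℝ) ≤
        k * x₁ * (T : ℝ) ^ ((k : ℝ) - 1) := by
      have h3 : ((Fintype.piFinset fun _ : Fin k => Finset.Icc 2 T).filter fun m => ¬ ∀ l, x₁ < m l) ⊆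
          Finset.univ.biUnion fun l : Fin k => Fintype.piFinset fun j : Fin k =>
            if j = l then Finset.Icc 1 x₁ else Finset.Icc 1 T := by
        intro m hm
        rw [Finset.mem_filter, Fintype.mem_piFinset] at hm
        obtain ⟨h4, h5⟩ := hm
        push Not at h5
        obtain ⟨l, hl⟩ := h5
        rw [Finset.mem_biUnion]
        refine ⟨l, Finset.mem_univ _, ?_⟩
        rw [Fintype.mem_piFinset]
        intro j
        have h6 := Finset.mem_Icc.1 (h4 j)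
        split_ifs with hj
        · subst hj
          exact Finset.mem_Icc.2 ⟨by omega, hl⟩
        · exact Finset.mem_Icc.2 ⟨by omega, h6.2⟩
      have h4 : (Finset.univ.biUnion fun l : Fin k => Fintype.piFinset fun j : Fin k =>
            if j = l then Finset.Icc 1 x₁ else Finset.Icc 1 T).card ≤ k * (x₁ * T ^ (k - 1)) := by
        refine Finset.card_biUnion_le.trans ?_
        refine (Finset.sum_le_card_nsmul _ _ (x₁ * T ^ (k - 1)) fun l _ => ?_).trans (by
          rw [Finset.card_univ, Fintype.card_fin, smul_eq_mul])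
        rw [Fintype.card_piFinset, ← Finset.mul_prod_erase _ _ (Finset.mem_univ l), if_pos rfl, Nat.card_Icc,
          Nat.add_sub_cancel]
        refine Nat.mul_le_mul_left _ (le_of_eq ?_)
        rw [Finset.prod_congr rfl (g := fun _ => T) (fun j hj => by
          rw [if_neg (Finset.ne_of_mem_erase hj), Nat.card_Icc, Nat.add_sub_cancel]), Finset.prod_const,
          Finset.card_erase_of_mem (Finset.mem_univ l), Finset.card_univ, Fintype.card_fin]
      rcases Nat.eq_zero_or_pos k with rfl | hk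
      · have h5 : ((Fintype.piFinset fun _ : Fin 0 => Finset.Icc 2 T).filter fun m => ¬ ∀ l, x₁ < m l) = ∅ := by
          refine Finset.filter_eq_empty_iff.2 fun m _ => ?_
          push Not
          exact fun l => l.elim0
        rw [h5]
        simp
      · have h5 := (Finset.card_le_card h3).trans h4
        have h6 : (((Fintype.piFinset fun _ : Fin k => Finset.Icc 2 T).filter fun m => ¬ ∀ l, x₁ < m l).card : ℝ) ≤
            ((k * (x₁ * T ^ (k - 1)) : ℕ) : ℝ) := by exact_mod_cast h5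
        refine h6.trans (le_of_eq ?_)
        push_cast
        rw [← Real.rpow_natCast, Nat.cast_sub hk, Nat.cast_one, mul_assoc]
    have h3 : (((Fintype.piFinset fun _ : Fin k => Finset.Icc 2 T).filter fun m => ¬ Concl (u : Matrix (Fin n) (Fin n) ℂ) Z D m).card : ℝ) ≤
        (((Fintype.piFinset fun _ : Fin k => Finset.Icc 2 T).filter fun m => ¬ ∀ l, x₁ < m l).card : ℝ) +
        (((Fintype.piFinset fun _ : Fin k => Finset.Icc 2 T).filter fun m =>
          ¬ Spec (u : Matrix (Fin n) (Fin n) ℂ) Z x₀ (dg (Fin n × Fin k) * D ^ D) VQ m).card : ℝ) := by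
      have h4 : ((Fintype.piFinset fun _ : Fin k => Finset.Icc 2 T).filter fun m => ¬ Concl (u : Matrix (Fin n) (Fin n) ℂ) Z D m) ⊆
        ((Fintype.piFinset fun _ : Fin k => Finset.Icc 2 T).filter fun m => ¬ ∀ l, x₁ < m l) ∪
        ((Fintype.piFinset fun _ : Fin k => Finset.Icc 2 T).filter fun m =>
          ¬ Spec (u : Matrix (Fin n) (Fin n) ℂ) Z x₀ (dg (Fin n × Fin k) * D ^ D) VQ m) := by
        intro m hm
        rw [Finset.mem_filter] at hm
        rw [Finset.mem_union, Finset.mem_filter, Finset.mem_filter]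
        by_contra hne
        push Not at hne
        exact hm.2 (hconcl k D _ m (hne.1 hm.1) (hne.2 hm.1))
      exact_mod_cast (Finset.card_le_card h4).trans (Finset.card_union_le _ _)
    refine h3.trans ((add_le_add h2 h1).trans ?_)
    have h4 : (T : ℝ) ^ ((k : ℝ) - 1) ≤ (T : ℝ) ^ ((k : ℝ) - min c 1) :=
      Real.rpow_le_rpow_of_exponent_le hT1 (by linarith [min_le_right c 1])
    have h5 : (T : ℝ) ^ ((k : ℝ) - c) ≤ (T : ℝ) ^ ((k : ℝ) - min c 1) :=
      Real.rpow_le_rpow_of_exponent_le hT1 (by linarith [min_le_left c 1])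
    have h6 : C * (T : ℝ) ^ ((k : ℝ) - c) ≤ |C| * (T : ℝ) ^ ((k : ℝ) - min c 1) :=
      (mul_le_mul_of_nonneg_right (le_abs_self C) (by positivity)).trans
        (mul_le_mul_of_nonneg_left h5 (abs_nonneg _))
    have h7 : (k : ℝ) * x₁ * (T : ℝ) ^ ((k : ℝ) - 1) ≤ k * x₁ * (T : ℝ) ^ ((k : ℝ) - min c 1) :=
      mul_le_mul_of_nonneg_left h4 (by positivity)
    rw [add_mul]
    linarith

end Pool.Agent.W2helper33.BD

end
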