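import Pool.Agent.W2helper33.BD.Basic

/-!
# The action of a subtorsor on the normaliser of its Lie algebra
-/

set_option autoImplicit false
set_option linter.unusedSectionVars false

open Matrix MvPolynomial

noncomputable section

namespace Pool.Agent.W2helper33.BD

open Pool.Agent.TH127.PT Pool.Agent.TH119.MX Pool.Agent.TH119.DR Pool.Agent.Y123.ST Pool.Agent.W2helper33.OQ

variable {N : Type} [Fintype N] [DecidableEq N] {K : Subfield ℂ} {T : Set (Matrix N N ℂ)}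

/-- The right Lie algebra of a subtorsor, as a space of matrices. -/
def RM (T : Set (Matrix N N ℂ)) : Submodule ℂ (Matrix N N ℂ) where
  carrier := {w | fl w ∈ RR T}
  zero_mem' := by
    change fl (0 : Matrix N N ℂ) ∈ RR T
    rw [fl_zero]
    exact Submodule.zero_mem _
  add_mem' := by
    intro v w hv hw
    change fl (v + w) ∈ RR T
    rw [fl_add]
    exact Submodule.add_mem _ hv hw
  smul_mem' := by
    intro a v hv
    change fl (a • v) ∈ RR T
    rw [fl_smul]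
    exact Submodule.smul_mem _ a hv

/-- The normaliser of a space of matrices. -/
def Nr (L : Submodule ℂ (Matrix N N ℂ)) : Submodule ℂ (Matrix N N ℂ) where
  carrier := {Z | ∀ w ∈ L, Z * w - w * Z ∈ L}
  zero_mem' := by
    intro w _
    rw [Matrix.zero_mul, Matrix.mul_zero, sub_zero]
    exact L.zero_mem
  add_mem' := by
    intro x y hx hy w hw
    have h1 := L.add_mem (hx w hw) (hy w hw)
    have h2 : (x + y) * w - w * (x + y) = x * w - w * x + (y * w - w * y) := by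
      rw [Matrix.add_mul, Matrix.mul_add]
      abel
    rwa [h2]
  smul_mem' := by
    intro a x hx w hw
    have h1 := L.smul_mem a (hx w hw)
    have h2 : (a • x) * w - w * (a • x) = a • (x * w - w * x) := by
      rw [Matrix.smul_mul, Matrix.mul_smul, smul_sub]
    rwa [h2]

theorem mem_Nr {L : Submodule ℂ (Matrix N N ℂ)} {Z : Matrix N N ℂ} : Z ∈ Nr L ↔ ∀ w ∈ L, Z * w - w * Z ∈ L := Iff.rfl

theorem LM_le_Nr : LM T ≤ Nr (LM T) := fun _ hX _ hw => LM_br hX hw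

theorem conj_LM (hT : IsSubtorsor K T) {x w : Matrix N N ℂ} (hx : x ∈ T) (hw : w ∈ LM T) : x⁻¹ * w * x ∈ RM T :=
  conj_mem hT hx hw

theorem conj_RM (hT : IsSubtorsor K T) {x w : Matrix N N ℂ} (hx : x ∈ T) (hw : w ∈ RM T) : x * w * x⁻¹ ∈ LM T :=
  conj_mem' hT hx hw

/-- The conjugation maps the normaliser to the normaliser. -/
theorem conj_Nr (hT : IsSubtorsor K T) {x A : Matrix N N ℂ} (hx : x ∈ T) (hA : A ∈ Nr (RM T)) :
    x * A * x⁻¹ ∈ Nr (LM T) := by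
  intro w hw
  have h1 := conj_RM hT hx (hA _ (conj_LM hT hx hw))
  have e1 := mul_inv' hT hx
  have h2 : x * (A * (x⁻¹ * w * x) - x⁻¹ * w * x * A) * x⁻¹ =
      x * A * x⁻¹ * w * (x * x⁻¹) - (x * x⁻¹) * w * (x * A * x⁻¹) := by
    rw [Matrix.mul_sub, Matrix.sub_mul]
    simp only [Matrix.mul_assoc]
  rw [h2, e1, Matrix.mul_one, Matrix.one_mul] at h1
  exact h1

theorem conj_Nr' (hT : IsSubtorsor K T) {x A : Matrix N N ℂ} (hx : x ∈ T) (hA : A ∈ Nr (LM T)) :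
    x⁻¹ * A * x ∈ Nr (RM T) := by
  intro w hw
  have h1 := conj_LM hT hx (hA _ (conj_RM hT hx hw))
  have e1 := inv_mul' hT hx
  have h2 : x⁻¹ * (A * (x * w * x⁻¹) - x * w * x⁻¹ * A) * x =
      x⁻¹ * A * x * w * (x⁻¹ * x) - (x⁻¹ * x) * w * (x⁻¹ * A * x) := by
    rw [Matrix.mul_sub, Matrix.sub_mul]
    simp only [Matrix.mul_assoc]
  rw [h2, e1, Matrix.mul_one, Matrix.one_mul] at h1
  exact h1

/-! ### Rationality -/

/-- A space of matrices, as a space of functions. -/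
def fs (L : Submodule ℂ (Matrix N N ℂ)) : Submodule ℂ (N × N → ℂ) where
  carrier := {v | um v ∈ L}
  zero_mem' := by
    change um (0 : N × N → ℂ) ∈ L
    rw [um_zero]
    exact L.zero_mem
  add_mem' := by
    intro v w hv hw
    change um (v + w) ∈ L
    rw [um_add]
    exact L.add_mem hv hw
  smul_mem' := by
    intro a v hv
    change um (a • v) ∈ L
    rw [um_smul]
    exact L.smul_mem a hv

theorem mem_fs {L : Submodule ℂ (Matrix N N ℂ)} {v : N × N → ℂ} : v ∈ fs L ↔ um v ∈ L := Iff.rfl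

theorem um_map (σ : ℂ ≃+* ℂ) (v : N × N → ℂ) : um (fun i => σ (v i)) = (um v).map σ := rfl

theorem map_map_symm (σ : ℂ ≃+* ℂ) (w : Matrix N N ℂ) : (w.map σ.symm).map σ = w := by
  ext i j
  simp

theorem RM_aut (hT : IsSubtorsor K T) {σ : ℂ ≃+* ℂ} (hσ : ∀ x ∈ K, σ x = x) {w : Matrix N N ℂ} (hw : w ∈ RM T) :
    w.map σ ∈ RM T := RR_aut hT σ hσ (fl w) hw

theorem LM_aut (hT : IsSubtorsor K T) {σ : ℂ ≃+* ℂ} (hσ : ∀ x ∈ K, σ x = x) {w : Matrix N N ℂ} (hw : w ∈ LM T) :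
    w.map σ ∈ LM T := LL_aut hT σ hσ (fl w) hw

theorem map_mulm (σ : ℂ ≃+* ℂ) (x y : Matrix N N ℂ) : (x * y).map σ = x.map σ * y.map σ :=
  Matrix.map_mul (f := (σ : ℂ →+* ℂ)) (L := x) (M := y)

theorem Nr_aut {L : Submodule ℂ (Matrix N N ℂ)} (σ : ℂ ≃+* ℂ) (h : ∀ w ∈ L, w.map σ ∈ L)
    (h' : ∀ w ∈ L, w.map σ.symm ∈ L) {Z : Matrix N N ℂ} (hZ : Z ∈ Nr L) : Z.map σ ∈ Nr L := by
  intro w hw
  have h1 := h _ (hZ _ (h' w hw))
  have h2 : (Z * w.map σ.symm - w.map σ.symm * Z).map σ = Z.map σ * w - w * Z.map σ := by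
    have h3 : (Z * w.map σ.symm - w.map σ.symm * Z).map σ =
        (Z * w.map σ.symm).map σ - (w.map σ.symm * Z).map σ :=
      Matrix.map_sub σ (fun a b => map_sub σ a b) _ _
    rw [h3, map_mulm, map_mulm, map_map_symm]
  rwa [h2] at h1

theorem Nr_def (hT : IsSubtorsor K T) : DefOver K (fs (Nr (RM T))) := by
  refine defOver_of_aut _ fun σ hσ v hv => ?_
  change (um v).map σ ∈ Nr (RM T)
  exact Nr_aut σ (fun w hw => RM_aut hT hσ hw) (fun w hw => RM_aut hT (symm_fix hσ) hw) hv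

theorem perp_def (hT : IsSubtorsor K T) : DefOver K (perp (LM T)) := by
  refine defOver_of_aut _ fun σ hσ ψ hψ w hw => ?_
  have h1 := hψ _ (LM_aut hT (symm_fix hσ) hw)
  have h2 := congrArg σ h1
  rw [map_zero, pr_apply, map_sum] at h2
  rw [pr_apply, ← h2]
  refine Finset.sum_congr rfl fun b _ => ?_
  rw [map_mul]
  simp

/-! ### Algebraicity -/

theorem pr_der (D : Derivation K ℂ ℂ) {ψ : N × N → ℂ} (hψ : ∀ b, ψ b ∈ K) (M : Matrix N N ℂ) :
    D (pr ψ M) = pr ψ (M.map D) := by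
  rw [pr_apply, pr_apply, map_sum]
  refine Finset.sum_congr rfl fun b _ => ?_
  have h1 : D (ψ b) = 0 := D.map_algebraMap (⟨ψ b, hψ b⟩ : K)
  rw [D.leibniz, h1, smul_zero, add_zero, smul_eq_mul, Matrix.map_apply]

/-- The derivative of a conjugate. -/
theorem conj_der (hT : IsSubtorsor K T) (D : Derivation K ℂ ℂ) {x A : Matrix N N ℂ} (hx : x ∈ T)
    (hA : ∀ i j, A i j ∈ K) : (x * A * x⁻¹).map D =
      x.map D * x⁻¹ * (x * A * x⁻¹) - x * A * x⁻¹ * (x.map D * x⁻¹) := by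
  have e1 := mul_inv' hT hx
  have e2 := inv_mul' hT hx
  have h0 : (1 : Matrix N N ℂ).map D = 0 := by
    refine map_der_zero D fun i j => ?_
    rw [Matrix.one_apply]
    split_ifs
    · exact K.one_mem
    · exact K.zero_mem
  have h1 : (x⁻¹).map D = -(x⁻¹ * x.map D * x⁻¹) := by
    have h2 := map_der_mul D x⁻¹ x
    rw [e2, h0] at h2
    have h3 : (x⁻¹).map D * x = -(x⁻¹ * x.map D) := (neg_eq_of_add_eq_zero_left h2.symm).symm
    calc (x⁻¹).map D = (x⁻¹).map D * (x * x⁻¹) := by rw [e1, Matrix.mul_one]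
      _ = (x⁻¹).map D * x * x⁻¹ := by rw [Matrix.mul_assoc]
      _ = -(x⁻¹ * x.map D * x⁻¹) := by rw [h3, Matrix.neg_mul]
  rw [map_der_mul, map_der_mul, map_der_zero D hA, Matrix.mul_zero, add_zero, h1]
  have h4 : x.map D * x⁻¹ * (x * A * x⁻¹) = x.map D * A * x⁻¹ := by
    have h5 : x.map D * x⁻¹ * (x * A * x⁻¹) = x.map D * (x⁻¹ * x) * A * x⁻¹ := by simp only [Matrix.mul_assoc]
    rw [h5, e2, Matrix.mul_one]
  rw [h4, Matrix.mul_neg, ← sub_eq_add_neg]
  simp only [Matrix.mul_assoc]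

/-- **Algebraicity**: the action on the normaliser modulo the Lie algebra is algebraic. -/
theorem alg_conj (hK : ∀ x ∈ K, IsAlgebraic ℚ x) (hT : IsSubtorsor K T) {x A : Matrix N N ℂ} (hx : x ∈ T)
    (hA : ∀ i j, A i j ∈ K) (hAN : A ∈ Nr (RM T)) {ψ : N × N → ℂ} (hψ : ∀ b, ψ b ∈ K) (hψL : ψ ∈ perp (LM T)) :
    IsAlgebraic ℚ (pr ψ (x * A * x⁻¹)) := by
  by_contra hcon
  obtain ⟨D, hD⟩ := exists_der_ne hK (z := pr ψ (x * A * x⁻¹)) hcon
  apply hD
  rw [pr_der D hψ, conj_der hT D hx hA]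
  have h2 : x.map D * x⁻¹ ∈ LM T := logder_mem hT D hx
  have h3 := conj_Nr hT hx hAN _ h2
  have h4 := hψL _ h3
  have h5 : x.map D * x⁻¹ * (x * A * x⁻¹) - x * A * x⁻¹ * (x.map D * x⁻¹) =
      -(x * A * x⁻¹ * (x.map D * x⁻¹) - x.map D * x⁻¹ * (x * A * x⁻¹)) := by abel
  rw [h5, map_neg, h4, neg_zero]

/-! ### The components -/

/-- On each component the action is constant. -/
theorem const_comp (hK : ∀ x ∈ K, IsAlgebraic ℚ x) (hT : IsSubtorsor K T) {P : Ideal (MvPolynomial (N × N) ℂ)}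
    (hP : P ∈ (VI T).minimalPrimes) {A : Matrix N N ℂ} (hA : A ∈ Nr (RM T)) {ψ : N × N → ℂ} (hψ : ψ ∈ perp (LM T)) :
    ∃ α : ℂ, cj ψ A - C α * dt N ∈ P := by
  classical
  have hcount : Countable {α : ℂ // IsAlgebraic ℚ α} := (Algebraic.countable ℚ ℂ).to_subtype
  have base : ∀ (A : Matrix N N ℂ) (ψ : N × N → ℂ), (∀ i j, A i j ∈ K) → A ∈ Nr (RM T) → (∀ b, ψ b ∈ K) →
      ψ ∈ perp (LM T) → ∃ α : ℂ, cj ψ A - C α * dt N ∈ P := by
    intro A ψ hA hAN hψ hψL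
    by_contra hcon
    push Not at hcon
    obtain ⟨x, hx, hx2⟩ := exists_pt hT hP (fun α : {α : ℂ // IsAlgebraic ℚ α} => cj ψ A - C α.1 * dt N)
      fun α => hcon α.1
    have h1 := alg_conj hK hT hx hA hAN hψ hψL
    apply hx2 ⟨_, h1⟩
    rw [map_sub, map_mul, eval_C, eval_dt, eval_cj ψ A x (hT.isUnit x hx)]
    ring
  have step1 : ∀ v ∈ Submodule.span ℂ {w : N × N → ℂ | w ∈ fs (Nr (RM T)) ∧ ∀ a, w a ∈ K}, ∀ ψ : N × N → ℂ,
      (∀ b, ψ b ∈ K) → ψ ∈ perp (LM T) → ∃ α : ℂ, cj ψ (um v) - C α * dt N ∈ P := by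
    intro v hv ψ hψ hψL
    induction hv using Submodule.span_induction with
    | mem w hw => exact base _ ψ (fun i j => hw.2 (i, j)) hw.1 hψ hψL
    | zero =>
      refine ⟨0, ?_⟩
      rw [um_zero, cj_zero', map_zero, zero_mul, sub_zero]
      exact P.zero_mem
    | add v w _ _ hv hw =>
      obtain ⟨α, hα⟩ := hv
      obtain ⟨β, hβ⟩ := hw
      refine ⟨α + β, ?_⟩
      have h1 := P.add_mem hα hβ
      have h2 : cj ψ (um (v + w)) - C (α + β) * dt N = cj ψ (um v) - C α * dt N + (cj ψ (um w) - C β * dt N) := by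
        rw [um_add, cj_add', map_add]
        ring
      rwa [h2]
    | smul a v _ hv =>
      obtain ⟨α, hα⟩ := hv
      refine ⟨a * α, ?_⟩
      have h1 := P.mul_mem_left (C a) hα
      have h2 : cj ψ (um (a • v)) - C (a * α) * dt N = C a * (cj ψ (um v) - C α * dt N) := by
        rw [um_smul, cj_smul', map_mul]
        ring
      rwa [h2]
  have hA' : fl A ∈ fs (Nr (RM T)) := hA
  have h1 := step1 _ (Nr_def hT hA')
  rw [um_fl] at h1
  have h2 := perp_def hT hψ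
  clear hψ
  induction h2 using Submodule.span_induction with
  | mem ψ hψ => exact h1 ψ hψ.2 hψ.1
  | zero =>
    refine ⟨0, ?_⟩
    rw [cj_zero, map_zero, zero_mul, sub_zero]
    exact P.zero_mem
  | add v w _ _ hv hw =>
    obtain ⟨α, hα⟩ := hv
    obtain ⟨β, hβ⟩ := hw
    refine ⟨α + β, ?_⟩
    have h3 := P.add_mem hα hβ
    have h4 : cj (v + w) A - C (α + β) * dt N = cj v A - C α * dt N + (cj w A - C β * dt N) := by
      rw [cj_add, map_add]
      ring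
    rwa [h4]
  | smul a v _ hv =>
    obtain ⟨α, hα⟩ := hv
    refine ⟨a * α, ?_⟩
    have h3 := P.mul_mem_left (C a) hα
    have h4 : cj (a • v) A - C (a * α) * dt N = C a * (cj v A - C α * dt N) := by
      rw [cj_smul, map_mul]
      ring
    rwa [h4]

/-- **Finiteness**: there are finitely many points of the subtorsor which represent all actions on the
normaliser modulo the Lie algebra. -/
theorem finite_act (hK : ∀ x ∈ K, IsAlgebraic ℚ x) (hT : IsSubtorsor K T) :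
    ∃ S : Set (Matrix N N ℂ), S.Finite ∧ S ⊆ T ∧ ∀ x ∈ T, ∃ s ∈ S, ∀ A ∈ Nr (RM T), ∀ ψ ∈ perp (LM T),
      pr ψ (x * A * x⁻¹) = pr ψ (s * A * s⁻¹) := by
  classical
  have hfin : (VI T).minimalPrimes.Finite := Ideal.finite_minimalPrimes_of_isNoetherianRing _ _
  have h1 : ∀ P ∈ (VI T).minimalPrimes, ∃ s, s ∈ T ∧ ∀ f ∈ P, eval (fl s) f = 0 := by
    intro P hP
    have hprime : P.IsPrime := hP.1.1
    have hle : VI T ≤ P := hP.1.2
    obtain ⟨y, hy1, hy2⟩ := exists_point P (fun _ : Unit => dt N) (fun _ => dt_notMem hT hP)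
    obtain ⟨I, hI1, hI2⟩ := hT.algebraic
    refine ⟨um y, ?_, fun f hf => hy1 f hf⟩
    rw [hI2]
    refine ⟨?_, fun p hp => hy1 p (hle fun x hx => ((hI2 x).1 hx).2 p hp)⟩
    rw [Matrix.isUnit_iff_isUnit_det, isUnit_iff_ne_zero, ← eval_dt, fl_um]
    exact hy2 ()
  choose! s hs1 hs2 using h1
  refine ⟨s '' (VI T).minimalPrimes, hfin.image _, ?_, fun x hx => ?_⟩
  · rintro _ ⟨P, hP, rfl⟩
    exact hs1 P hP
  have hker : VI T ≤ RingHom.ker (eval (fl x) : MvPolynomial (N × N) ℂ →+* ℂ) := fun P hP => hP _ hx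
  have hkp : (RingHom.ker (eval (fl x) : MvPolynomial (N × N) ℂ →+* ℂ)).IsPrime := RingHom.ker_isPrime _
  obtain ⟨P, hP, hPk⟩ := Ideal.exists_minimalPrimes_le hker
  refine ⟨s P, ⟨P, hP, rfl⟩, fun A hA ψ hψ => ?_⟩
  obtain ⟨α, hα⟩ := const_comp hK hT hP hA hψ
  have key : ∀ y : Matrix N N ℂ, IsUnit y → eval (fl y) (cj ψ A - C α * dt N) = 0 → pr ψ (y * A * y⁻¹) = α := by
    intro y hy h2
    rw [map_sub, map_mul, eval_C, eval_dt, eval_cj ψ A y hy, mul_comm α, ← mul_sub] at h2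
    have h3 : y.det ≠ 0 := ((Matrix.isUnit_iff_isUnit_det y).1 hy).ne_zero
    exact sub_eq_zero.1 ((mul_eq_zero.1 h2).resolve_left h3)
  rw [key x (hT.isUnit x hx) (hPk hα), key _ (hT.isUnit _ (hs1 P hP)) (hs2 P hP _ hα)]

end Pool.Agent.W2helper33.BD

end
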