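import Pool.Agent.W2helper43.BD.Stm

/-!
Piece ORB of project BD: orbit counting modulo `ℓ`.
-/

set_option autoImplicit false

namespace Pool.Agent.W2helper43.BD

open Finset

theorem orb_card {ℓ : ℕ} (hℓ : ℓ.Prime) {Q X : Type} [Group Q] [Finite Q] [Fintype X]
    [MulAction Q X] (hQ : IsPGroup ℓ Q) (P : X → Prop) [DecidablePred P]
    (hP : ∀ (q : Q) x, P x → P (q • x))
    [DecidablePred fun x : X => x ∈ MulAction.fixedPoints Q X] :
    (univ.filter P).card ≡
      ((univ.filter (fun x => x ∈ MulAction.fixedPoints Q X)).filter P).card [MOD ℓ] := by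
  classical
  have : Fact ℓ.Prime := ⟨hℓ⟩
  let Y : SubMulAction Q X := { carrier := {x | P x}, smul_mem' := fun q x hx => hP q x hx }
  have h := hQ.card_modEq_card_fixedPoints Y
  have h1 : Nat.card Y = (univ.filter P).card :=
    Nat.subtype_card _ (fun x => by
      rw [mem_filter]
      exact ⟨fun hx => hx.2, fun hx => ⟨mem_univ _, hx⟩⟩)
  have h2 : Nat.card (MulAction.fixedPoints Q Y) =
      ((univ.filter (fun x => x ∈ MulAction.fixedPoints Q X)).filter P).card := by
    rw [← Nat.subtype_card (p := fun x : X => x ∈ MulAction.fixedPoints Q X ∧ P x) _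
      (fun x => by simp only [mem_filter, mem_univ, true_and])]
    refine Nat.card_congr
      { toFun := fun y => ⟨y.1.1, fun q => congrArg Subtype.val (y.2 q), y.1.2⟩
        invFun := fun x => ⟨⟨x.1, x.2.2⟩, fun q => Subtype.ext (x.2.1 q)⟩
        left_inv := fun y => rfl
        right_inv := fun x => rfl }
  rw [h1, h2] at h
  exact h

theorem p_orb : P_ORB := by
  intro ℓ hℓ Q X k _ _ _ _ _ _ hQ s hs _
  classical
  rw [← sum_fiberwise_of_maps_to (s := univ) (t := univ.image s) (g := s)
      (fun i _ => mem_image_of_mem s (mem_univ i)) s,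
    ← sum_fiberwise_of_maps_to (s := univ.filter fun x => x ∈ MulAction.fixedPoints Q X)
      (t := univ.image s) (g := s) (fun i _ => mem_image_of_mem s (mem_univ i)) s]
  refine sum_congr rfl fun c _ => ?_
  have h1 : ∀ t : Finset X, ∑ i ∈ t with s i = c, s i = ((t.filter fun i => s i = c).card : k) * c := by
    intro t
    rw [sum_congr rfl (fun i hi => (mem_filter.1 hi).2), sum_const, nsmul_eq_mul]
  rw [h1, h1]
  congr 1
  rw [CharP.natCast_eq_natCast k ℓ]
  exact orb_card hℓ hQ (fun x => s x = c) (fun q x hx => by rw [hs, hx])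

end Pool.Agent.W2helper43.BD
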