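import Pool.Agent.W2helper33.BD.Norm

/-!
# The smallest subtorsor
-/

set_option autoImplicit false
set_option linter.unusedSectionVars false

open Matrix MvPolynomial Module

noncomputable section

namespace Pool.Agent.W2helper33.BD

open Pool.Agent.TH127.PT Pool.Agent.TH119.MX Pool.Agent.TH119.DR Pool.Agent.Y123.ST Pool.Agent.W2helper33.OQ

variable {N : Type} [Fintype N] [DecidableEq N] {K : Subfield ℂ} {T : Set (Matrix N N ℂ)}

/-- The derivative of the determinant. -/
theorem dd_dt (w x : Matrix N N ℂ) : dd (dt N) (fl x) (fl (w * x)) = w.trace * x.det := by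
  have h1 : ∀ b, HasDerivAt (fun s : ℂ => fl ((1 + s • w) * x) b) (fl (w * x) b) 0 := by
    intro b
    have h2 : (fun s : ℂ => fl ((1 + s • w) * x) b) = fun s : ℂ => fl x b + s * fl (w * x) b := by
      funext s
      rw [Matrix.add_mul, Matrix.one_mul, Matrix.smul_mul]
      rfl
    rw [h2]
    have h3 := ((hasDerivAt_id (0 : ℂ)).mul_const (fl (w * x) b)).const_add (fl x b)
    rw [one_mul] at h3
    exact h3
  have h2 := hasDerivAt_eval h1 (dt N)
  have h3 : (fun s : ℂ => eval (fl ((1 + s • w) * x)) (dt N)) = fun s : ℂ => (1 + s • w).det * x.det := by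
    funext s
    rw [eval_dt, Matrix.det_mul]
  rw [h3] at h2
  have h4 : (fun s : ℂ => (1 + s • w).det) = fun s : ℂ =>
      (Matrix.det (1 + (Polynomial.X : Polynomial ℂ) • w.map Polynomial.C)).eval s := by
    funext s
    have h5 := RingHom.map_det (Polynomial.evalRingHom s) (1 + (Polynomial.X : Polynomial ℂ) • w.map Polynomial.C)
    rw [Polynomial.coe_evalRingHom] at h5
    rw [h5]
    congr 1
    ext i j
    simp [Matrix.one_apply]
    split_ifs <;> simp [mul_comm]
  have h5 : HasDerivAt (fun s : ℂ => (1 + s • w).det) w.trace 0 := by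
    rw [h4]
    have h6 := (Matrix.det (1 + (Polynomial.X : Polynomial ℂ) • w.map Polynomial.C)).hasDerivAt 0
    rw [Matrix.derivative_det_one_add_X_smul] at h6
    exact h6
  have h6 := (h5.mul_const x.det).unique h2
  rw [zero_smul, add_zero, Matrix.one_mul] at h6
  exact h6.symm

/-- The determinant of the exponential. -/
theorem det_exp (X : Matrix N N ℂ) : (NormedSpace.exp X).det = Complex.exp X.trace := by
  let f : ℂ → ℂ := fun t => (NormedSpace.exp (t • X)).det
  have h1 : ∀ t, HasDerivAt f (X.trace * f t) t := by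
    intro t
    have h2 := hasDerivAt_eval (y := fun s => fl (NormedSpace.exp (s • X) * (1 : Matrix N N ℂ)))
      (fun b => hasDerivAt_left X 1 b t) (dt N)
    have h3 : (fun s : ℂ => eval (fl (NormedSpace.exp (s • X) * (1 : Matrix N N ℂ))) (dt N)) = f := by
      funext s
      rw [eval_dt, Matrix.mul_one]
    rw [h3, dd_dt, Matrix.mul_one] at h2
    exact h2
  have h2 : ∀ t, HasDerivAt (fun t => f t * Complex.exp (-(X.trace * t))) 0 t := by
    intro t
    have h3 : HasDerivAt (fun t : ℂ => -(X.trace * t)) (-(X.trace)) t := by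
      have h4 := ((hasDerivAt_id t).const_mul X.trace).neg
      rw [mul_one] at h4
      exact h4
    have h5 := (h1 t).mul h3.cexp
    have h6 : X.trace * f t * Complex.exp (-(X.trace * t)) + f t * (Complex.exp (-(X.trace * t)) * -X.trace) = 0 := by
      ring
    rw [h6] at h5
    exact h5
  have h3 := is_const_of_deriv_eq_zero (f := fun t => f t * Complex.exp (-(X.trace * t)))
    (fun t => (h2 t).differentiableAt) (fun t => (h2 t).deriv) 1 0
  have h4 : f 0 = 1 := by
    change (NormedSpace.exp ((0 : ℂ) • X)).det = 1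
    rw [zero_smul, NormedSpace.exp_zero, Matrix.det_one]
  have h5 : f 1 = (NormedSpace.exp X).det := by
    change (NormedSpace.exp ((1 : ℂ) • X)).det = _
    rw [one_smul]
  simp only [h4, h5, mul_one, mul_zero, neg_zero, Complex.exp_zero] at h3
  have h6 : (NormedSpace.exp X).det * Complex.exp (-X.trace) * Complex.exp X.trace = Complex.exp X.trace := by
    rw [h3, one_mul]
  rwa [mul_assoc, ← Complex.exp_add, neg_add_cancel, Complex.exp_zero, mul_one] at h6


/-! ### The group generated by the exponentials -/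

/-- The group generated by the exponentials. -/
def Gp (𝔤 : Submodule ℂ (Matrix N N ℂ)) : Submonoid (Matrix N N ℂ) :=
  Submonoid.closure {g | ∃ X ∈ 𝔤, g = NormedSpace.exp X}

variable {𝔤 : Submodule ℂ (Matrix N N ℂ)}

theorem Gp_act (hT : IsSubtorsor K T) (h : 𝔤 ≤ LM T) {g : Matrix N N ℂ} (hg : g ∈ Gp 𝔤) :
    ∀ x ∈ T, g * x ∈ T := by
  induction hg using Submonoid.closure_induction with
  | mem g hg =>
    obtain ⟨X, hX, rfl⟩ := hg
    exact fun x hx => exp_act hT (h hX) hx
  | one => exact fun x hx => by rwa [Matrix.one_mul]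
  | mul a b _ _ ha hb =>
    intro x hx
    rw [Matrix.mul_assoc]
    exact ha _ (hb x hx)

theorem Gp_inv {g : Matrix N N ℂ} (hg : g ∈ Gp 𝔤) : ∃ h ∈ Gp 𝔤, h * g = 1 := by
  induction hg using Submonoid.closure_induction with
  | mem g hg =>
    obtain ⟨X, hX, rfl⟩ := hg
    refine ⟨NormedSpace.exp (-X), Submonoid.subset_closure ⟨-X, 𝔤.neg_mem hX, rfl⟩, ?_⟩
    rw [← Matrix.exp_add_of_commute _ _ (Commute.neg_left (Commute.refl X)), neg_add_cancel, NormedSpace.exp_zero]
  | one => exact ⟨1, Submonoid.one_mem _, one_mul _⟩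
  | mul a b _ _ ha hb =>
    obtain ⟨a', ha', h1⟩ := ha
    obtain ⟨b', hb', h2⟩ := hb
    refine ⟨b' * a', Submonoid.mul_mem _ hb' ha', ?_⟩
    rw [mul_assoc, ← mul_assoc a', h1, one_mul, h2]

/-- A perfect Lie algebra. -/
def Perf (𝔤 : Submodule ℂ (Matrix N N ℂ)) : Prop :=
  ∀ Z ∈ 𝔤, Z ∈ Submodule.span ℂ {W | ∃ X ∈ 𝔤, ∃ Y ∈ 𝔤, W = X * Y - Y * X}

theorem Perf.trace (h : Perf 𝔤) {X : Matrix N N ℂ} (hX : X ∈ 𝔤) : X.trace = 0 := by
  have h1 := h X hX
  clear hX
  induction h1 using Submodule.span_induction with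
  | mem W hW =>
    obtain ⟨X, -, Y, -, rfl⟩ := hW
    rw [Matrix.trace_sub, Matrix.trace_mul_comm, sub_self]
  | zero => exact Matrix.trace_zero _ _
  | add a b _ _ ha hb => rw [Matrix.trace_add, ha, hb, add_zero]
  | smul t a _ ha => rw [Matrix.trace_smul, ha, smul_zero]

theorem Gp_det (hp : Perf 𝔤) {g : Matrix N N ℂ} (hg : g ∈ Gp 𝔤) : g.det = 1 := by
  induction hg using Submonoid.closure_induction with
  | mem g hg =>
    obtain ⟨X, hX, rfl⟩ := hg
    rw [det_exp, hp.trace hX, Complex.exp_zero]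
  | one => exact Matrix.det_one
  | mul a b _ _ ha hb => rw [Matrix.det_mul, ha, hb, one_mul]

/-- **The smallest subtorsor.** -/
theorem omega_le (hK : ∀ x ∈ K, IsAlgebraic ℚ x) (hp : Perf 𝔤) {c : Matrix N N ℂ} (hdet : Transcendental ℚ c.det)
    (hall : ∀ T : Set (Matrix N N ℂ), IsSubtorsor K T → c ∈ T → 𝔤 ≤ LM T) {E : Set (Matrix N N ℂ)}
    (hE : IsSubtorsor K E) (hcE : c ∈ E) (hEz : ∀ x ∈ E, ∃ z : ℂ, ∃ g ∈ Gp 𝔤, x = z • (g * c))
    (hT : IsSubtorsor K T) (hcT : c ∈ T) : E ⊆ T := by
  classical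
  have hT' : IsSubtorsor K (T ∩ E) := inter_sub hT hE
  have hc' : c ∈ T ∩ E := ⟨hcT, hcE⟩
  have hcu := hT.isUnit c hcT
  have hd0 : c.det ≠ 0 := ((Matrix.isUnit_iff_isUnit_det c).1 hcu).ne_zero
  have hL := hall _ hT' hc'
  obtain ⟨D, hD⟩ := exists_der_ne hK hdet
  let w := c.map D * c⁻¹
  have hw : w ∈ LM (T ∩ E) := logder_mem hT' D hc'
  have hwc : w * c = c.map D := by
    change c.map D * c⁻¹ * c = _
    rw [Matrix.mul_assoc, inv_mul' hT hcT, Matrix.mul_one]
  have htr : w.trace * c.det = D c.det := by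
    have h1 := dd_der' D (dt N) (fun m => ?_) (fl c)
    · rw [eval_dt] at h1
      rw [← h1, ← dd_dt, hwc]
      rfl
    · -- the coefficients of the determinant
      let Pd : MvPolynomial (N × N) K := (Matrix.of fun i j : N => (MvPolynomial.X (i, j) : MvPolynomial (N × N) K)).det
      have h2 : dt N = Pd.map (algebraMap K ℂ) := by
        rw [RingHom.map_det]
        unfold dt
        congr 1
        ext1 i j
        simp
      rw [h2, coeff_map]
      exact (coeff m Pd).2
  have htr0 : w.trace ≠ 0 := by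
    intro h0
    rw [h0, zero_mul] at htr
    exact hD htr.symm
  -- the multiples of `c` in the intersection
  have hexp : ∀ t : ℂ, ∃ z : ℂ, z • c ∈ T ∩ E ∧ z ^ Fintype.card N = Complex.exp (t * w.trace) := by
    intro t
    have h1 := exp_act hT' (Submodule.smul_mem _ t hw) hc'
    obtain ⟨z, g, hg, h2⟩ := hEz _ h1.2
    obtain ⟨h, hh, hhg⟩ := Gp_inv hg
    refine ⟨z, ?_, ?_⟩
    · have h3 := Gp_act hT' hL hh _ h1
      rw [h2, Matrix.mul_smul, ← Matrix.mul_assoc, hhg, Matrix.one_mul] at h3
      exact h3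
    · have h3 := congrArg Matrix.det h2
      rw [Matrix.det_mul, Matrix.det_smul, Matrix.det_mul, Gp_det hp hg, one_mul, det_exp, Matrix.trace_smul,
        smul_eq_mul] at h3
      exact (mul_right_cancel₀ hd0 h3).symm
  -- all multiples are in the intersection
  have hall' : ∀ s : ℂ, s ≠ 0 → s • c ∈ T ∩ E := by
    obtain ⟨I, hI1, hI2⟩ := hT'.algebraic
    have hq : ∀ p ∈ I, ∀ s : ℂ, eval (fl (s • c)) p = 0 := by
      intro p hp'
      let Q : Polynomial ℂ := MvPolynomial.aeval (fun b : N × N => Polynomial.C (c b.1 b.2) * Polynomial.X) p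
      have hQ : ∀ s, Q.eval s = eval (fl (s • c)) p := by
        intro s
        change (Polynomial.evalRingHom s) (MvPolynomial.aeval _ p) = _
        rw [MvPolynomial.map_aeval, MvPolynomial.coe_eval₂Hom, MvPolynomial.eval_eq', MvPolynomial.eval₂_eq']
        refine Finset.sum_congr rfl fun m _ => ?_
        congr 1
        · simp
        · refine Finset.prod_congr rfl fun b _ => ?_
          congr 1
          change Polynomial.eval s (Polynomial.C (c b.1 b.2) * Polynomial.X) = s * c b.1 b.2
          rw [Polynomial.eval_mul, Polynomial.eval_C, Polynomial.eval_X, mul_comm]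
      have hQ0 : Q = 0 := by
        by_contra hne
        have hfin : {z : ℂ | Q.IsRoot z}.Finite := Polynomial.finite_setOfPred_isRoot hne
        have hinf : Set.Infinite {u : ℂ | ∃ t : ℂ, u = Complex.exp (t * w.trace)} := by
          have h1 : {u : ℂ | u ≠ 0} ⊆ {u : ℂ | ∃ t : ℂ, u = Complex.exp (t * w.trace)} := by
            intro u hu
            refine ⟨Complex.log u / w.trace, ?_⟩
            rw [div_mul_cancel₀ _ htr0, Complex.exp_log hu]
          refine Set.Infinite.mono h1 ?_
          have h2 : ({u : ℂ | u ≠ 0} : Set ℂ) = {0}ᶜ := rfl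
          rw [h2]
          exact (Set.finite_singleton (0 : ℂ)).infinite_compl
        refine hinf ((hfin.image fun z => z ^ Fintype.card N).subset ?_)
        rintro _ ⟨t, rfl⟩
        obtain ⟨z, h1, h2⟩ := hexp t
        refine ⟨z, ?_, h2⟩
        change Q.eval z = 0
        rw [hQ]
        exact ((hI2 _).1 h1).2 p hp'
      intro s
      rw [← hQ, hQ0, Polynomial.eval_zero]
    intro s hs
    rw [hI2]
    refine ⟨?_, fun p hp' => hq p hp' s⟩
    rw [Matrix.isUnit_iff_isUnit_det, Matrix.det_smul, isUnit_iff_ne_zero]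
    exact mul_ne_zero (pow_ne_zero _ hs) hd0
  intro x hx
  obtain ⟨z, g, hg, rfl⟩ := hEz x hx
  by_cases hz : z = 0
  · -- then the matrices are empty
    subst hz
    have h1 := hE.isUnit _ hx
    rw [zero_smul] at h1 ⊢
    rcases isEmpty_or_nonempty N with hN | hN
    · have h2 : (0 : Matrix N N ℂ) = c := Subsingleton.elim _ _
      rw [h2]
      exact hcT
    · exact absurd h1 not_isUnit_zero
  · have h1 := Gp_act hT' hL hg _ (hall' z hz)
    rw [Matrix.mul_smul] at h1
    exact h1.1

end Pool.Agent.W2helper33.BD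

end
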