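import Pool.Agent.W2helper33.BD.Fam3

/-!
# The group of block diagonal matrices, polynomials over `K`
-/

set_option autoImplicit false
set_option linter.unusedSectionVars false

open Matrix Module

noncomputable section

namespace Pool.Agent.W2helper33.BD

open Pool.Agent.TH127.PT

/-- Polynomials with coefficients in `K`. -/
theorem exists_map_sub {B : Type} {K : Subfield ℂ} (p : MvPolynomial B ℂ) (hp : ∀ m, p.coeff m ∈ K) :
    ∃ q : MvPolynomial B K, MvPolynomial.map (algebraMap K ℂ) q = p ∧ q.totalDegree ≤ p.totalDegree := by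
  classical
  refine ⟨∑ m ∈ p.support, MvPolynomial.monomial m ⟨p.coeff m, hp m⟩, ?_, ?_⟩
  · rw [map_sum]
    conv_rhs => rw [p.as_sum]
    refine Finset.sum_congr rfl fun m _ => ?_
    rw [MvPolynomial.map_monomial]
    rfl
  · refine (MvPolynomial.totalDegree_finsetSum _ _).trans (Finset.sup_le fun m hm => ?_)
    exact (MvPolynomial.totalDegree_monomial_le _ _).trans (MvPolynomial.le_totalDegree hm)

theorem relTo_of_map {B : Type} [Fintype B] [DecidableEq B] {K : Subfield ℂ} {d : ℕ} {c y : Matrix B B ℂ}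
    (h : ∀ P : MvPolynomial (B × B) K, P.totalDegree ≤ d →
      MvPolynomial.eval (fun b => c b.1 b.2) (MvPolynomial.map (algebraMap K ℂ) P) = 0 →
      MvPolynomial.eval (fun b => y b.1 b.2) (MvPolynomial.map (algebraMap K ℂ) P) = 0) : RelTo K d c y := by
  intro p hp hpd hpc
  obtain ⟨q, hq, hqd⟩ := exists_map_sub p hp
  rw [← hq] at hpc ⊢
  exact h q (hqd.trans hpd) hpc

/-- `K`-subtorsors, defined by polynomials over `K`. -/
theorem subtorsor_iff {K : Subfield ℂ} {B : Type} [Fintype B] [DecidableEq B] {T : Set (Matrix B B ℂ)} :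
    ((∀ x ∈ T, ∀ y ∈ T, ∀ z ∈ T, x * y⁻¹ * z ∈ T) ∧ ∃ I : Set (MvPolynomial (B × B) K), ∀ x : Matrix B B ℂ, x ∈ T ↔
      IsUnit x ∧ ∀ p ∈ I, MvPolynomial.eval (fun b => x b.1 b.2) (MvPolynomial.map (algebraMap K ℂ) p) = 0) ↔
      IsSubtorsor K T := by
  constructor
  · rintro ⟨h1, I, h2⟩
    refine ⟨fun x hx => ((h2 x).1 hx).1, h1, (MvPolynomial.map (algebraMap K ℂ)) '' I, ?_, fun x => ?_⟩
    · rintro _ ⟨p, -, rfl⟩ m
      rw [MvPolynomial.coeff_map]
      exact (p.coeff m).2
    · rw [h2]
      refine and_congr_right fun _ => ⟨?_, ?_⟩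
      · rintro h _ ⟨p, hp, rfl⟩
        exact h p hp
      · intro h p hp
        exact h _ ⟨p, hp, rfl⟩
  · intro h
    obtain ⟨I, h1, h2⟩ := h.algebraic
    refine ⟨h.torsor, {p | MvPolynomial.map (algebraMap K ℂ) p ∈ I}, fun x => ?_⟩
    rw [h2]
    refine and_congr_right fun _ => ⟨?_, ?_⟩
    · intro h3 p hp
      exact h3 _ hp
    · intro h3 p hp
      obtain ⟨P0, hP0, -⟩ := exists_map_sub p (h1 p hp)
      rw [← hP0]
      exact h3 P0 (by rw [Set.mem_ofPred_eq, hP0]; exact hp)

/-- Block diagonal matrices with blocks in the group. -/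
theorem bd_mem {n k : ℕ} {𝔤 : Submodule ℂ (Matrix (Fin n) (Fin n) ℂ)} {g : Fin k → Matrix (Fin n) (Fin n) ℂ}
    (hg : ∀ l, g l ∈ Gp 𝔤) : blockDiagonal g ∈ Gp (bdS k 𝔤) := by
  classical
  have h1 : ∀ l : Fin k, ∀ a ∈ Gp 𝔤, (blockDiagonal (Pi.mulSingle l a) : Matrix (Fin n × Fin k) (Fin n × Fin k) ℂ) ∈
      Gp (bdS k 𝔤) := by
    intro l a ha
    induction ha using Submonoid.closure_induction with
    | mem a ha =>
      obtain ⟨X, hX, rfl⟩ := ha
      refine Submonoid.subset_closure ⟨blockDiagonal (Pi.single l X), ⟨Pi.single l X, fun j => ?_, rfl⟩, ?_⟩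
      · rcases eq_or_ne j l with rfl | hj
        · rw [Pi.single_eq_same]; exact hX
        · rw [Pi.single_eq_of_ne hj]; exact 𝔤.zero_mem
      · rw [exp_bd]
        congr 1
        funext j
        rcases eq_or_ne j l with rfl | hj
        · rw [Pi.single_eq_same, Pi.mulSingle_eq_same]
        · rw [Pi.single_eq_of_ne hj, Pi.mulSingle_eq_of_ne hj, NormedSpace.exp_zero]
    | one =>
      rw [Pi.mulSingle_one, blockDiagonal_one]
      exact Submonoid.one_mem _
    | mul a b _ _ ha hb =>
      have h2 : (Pi.mulSingle l (a * b) : Fin k → Matrix (Fin n) (Fin n) ℂ) =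
          fun j => Pi.mulSingle l a j * Pi.mulSingle l b j := by
        rw [Pi.mulSingle_mul]
        rfl
      rw [h2, blockDiagonal_mul]
      exact Submonoid.mul_mem _ ha hb
  have key : ∀ J : Finset (Fin k), ∀ g : Fin k → Matrix (Fin n) (Fin n) ℂ, (∀ l, g l ∈ Gp 𝔤) → (∀ l, l ∉ J → g l = 1) →
      blockDiagonal g ∈ Gp (bdS k 𝔤) := by
    intro J
    induction J using Finset.induction_on with
    | empty =>
      intro g _ hg
      have h2 : g = 1 := funext fun l => hg l (Finset.notMem_empty l)
      rw [h2, blockDiagonal_one]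
      exact Submonoid.one_mem _
    | insert a J ha ih =>
      intro g hg1 hg2
      have h2 : g = fun l => Pi.mulSingle a (g a) l * Function.update g a 1 l := by
        funext l
        rcases eq_or_ne l a with rfl | hl
        · rw [Pi.mulSingle_eq_same, Function.update_self, mul_one]
        · rw [Pi.mulSingle_eq_of_ne hl, Function.update_of_ne hl, one_mul]
      have h3 := ih (Function.update g a 1) (fun l => by
        rcases eq_or_ne l a with rfl | hl
        · rw [Function.update_self]; exact Submonoid.one_mem _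
        · rw [Function.update_of_ne hl]; exact hg1 l) (fun l hl => by
        rcases eq_or_ne l a with rfl | hl'
        · rw [Function.update_self]
        · rw [Function.update_of_ne hl']
          exact hg2 l fun h => (Finset.mem_insert.1 h).elim hl' hl)
      rw [h2, blockDiagonal_mul]
      exact Submonoid.mul_mem _ (h1 a _ (hg1 a)) h3
  exact key Finset.univ g hg fun l hl => absurd (Finset.mem_univ l) hl

end Pool.Agent.W2helper33.BD

end
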