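import Pool.Agent.W2helper43.BD.Stm

/-!
Piece WRD of project BD: the Clifford datum of the permutational wreath product.
-/

set_option autoImplicit false

namespace Pool.Agent.W2helper43.BD

/-- The character `n ↦ ζ ^ n` of `ZMod p`. -/
noncomputable def zchar {p : ℕ} [NeZero p] {Λ : Type} [CommRing Λ] (ζ : Λ) (h : ζ ^ p = 1) :
    Multiplicative (ZMod p) →* Λ where
  toFun x := ζ ^ (Multiplicative.toAdd x).val
  map_one' := by simp
  map_mul' x y := by
    rw [toAdd_mul, ZMod.val_add, ← pow_eq_pow_mod _ h, pow_add]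

theorem wr_conj {p : ℕ} {A : Type} [Group A] (K : Subgroup A) (γ : Wr p K)
    (v : (A ⧸ K) → Multiplicative (ZMod p)) :
    (SemidirectProduct.inl (mulAutArrow γ.right v) : Wr p K) =
      γ * SemidirectProduct.inl v * γ⁻¹ := by
  ext1
  · simp only [SemidirectProduct.left_inl, SemidirectProduct.mul_left, SemidirectProduct.inv_left,
      SemidirectProduct.mul_right, SemidirectProduct.right_inl, mul_one]
    rw [map_inv, map_inv, ← MulAut.mul_apply, ← map_mul, mul_inv_cancel, map_one, MulAut.one_apply,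
      mul_right_comm, mul_inv_cancel, one_mul]
  · simp

theorem wr_apply {p : ℕ} {A : Type} [Group A] (K : Subgroup A) (a : A)
    (v : (A ⧸ K) → Multiplicative (ZMod p)) (x : A ⧸ K) :
    (mulAutArrow a v : (A ⧸ K) → Multiplicative (ZMod p)) x = v (a⁻¹ • x) := rfl

theorem p_wrd : P_WRD := by
  intro p hp Λ A G _ _ _ _ _ j hj ζ hζ hu
  classical
  have : NeZero p := ⟨hp.ne_zero⟩
  let x0 : A ⧸ j.range := ((1 : A) : A ⧸ j.range)
  have hfix : ∀ g : G, (j g)⁻¹ • x0 = x0 := by
    intro g
    change (((j g)⁻¹ * 1 : A) : A ⧸ j.range) = ((1 : A) : A ⧸ j.range)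
    rw [QuotientGroup.eq]
    simp
  have hfix' : ∀ g : G, (j g) • x0 = x0 := by
    intro g
    rw [← hfix g, smul_inv_smul, hfix g]
  have hcard : (Nat.card ((A ⧸ j.range) → Multiplicative (ZMod p)) : Λ) =
      (p : Λ) ^ Nat.card (A ⧸ j.range) := by
    rw [Nat.card_fun]
    have : Nat.card (Multiplicative (ZMod p)) = p := Nat.card_zmod p
    rw [this, Nat.cast_pow]
  have hcu : IsUnit (Nat.card ((A ⧸ j.range) → Multiplicative (ZMod p)) : Λ) := by
    rw [hcard]
    exact hu.pow _
  obtain ⟨c, hc⟩ := hcu.exists_left_inv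
  have hw : ∀ (γ : Wr p j.range) (v w : (A ⧸ j.range) → Multiplicative (ZMod p)),
      (SemidirectProduct.inl w : Wr p j.range) = γ * SemidirectProduct.inl v * γ⁻¹ →
      w = mulAutArrow γ.right v := by
    intro γ v w h
    rw [← wr_conj] at h
    exact SemidirectProduct.inl_injective h
  let θ : ((A ⧸ j.range) → Multiplicative (ZMod p)) →* Λ :=
    (zchar ζ hζ.pow_eq_one).comp (Pi.evalMonoidHom _ x0)
  have hθ : ∀ v, θ v = ζ ^ (Multiplicative.toAdd (v x0)).val := fun v => rfl
  refine ⟨{
    iV := SemidirectProduct.inl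
    iG := (SemidirectProduct.inr).comp j
    θ := θ
    injV := SemidirectProduct.inl_injective
    injG := SemidirectProduct.inr_injective.comp hj
    disj := ?_
    normal := ?_
    inv := ?_
    v0 := Pi.mulSingle x0 (Multiplicative.ofAdd 1)
    v0_comm := ?_
    sep := ?_
    c := c
    hc := hc }⟩
  · intro v g h
    have h1 := congrArg SemidirectProduct.right h
    rw [SemidirectProduct.right_inl, MonoidHom.comp_apply, SemidirectProduct.right_inr] at h1
    exact hj (by rw [← h1, map_one])
  · intro γ v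
    exact ⟨_, wr_conj _ γ v⟩
  · intro g v w h
    have h1 := hw _ v w h
    rw [hθ, hθ, h1, wr_apply]
    have h2 : (((SemidirectProduct.inr).comp j) g : Wr p j.range).right = j g := by
      rw [MonoidHom.comp_apply, SemidirectProduct.right_inr]
    rw [h2, hfix]
  · intro g
    have h1 := wr_conj j.range (((SemidirectProduct.inr).comp j) g : Wr p j.range)
      (Pi.mulSingle x0 (Multiplicative.ofAdd 1))
    have h2 : (((SemidirectProduct.inr).comp j) g : Wr p j.range).right = j g := by
      rw [MonoidHom.comp_apply, SemidirectProduct.right_inr]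
    have h3 : mulAutArrow (j g) (Pi.mulSingle x0 (Multiplicative.ofAdd 1) :
        (A ⧸ j.range) → Multiplicative (ZMod p)) = Pi.mulSingle x0 (Multiplicative.ofAdd 1) := by
      funext x
      rw [wr_apply]
      by_cases hx : x = x0
      · rw [hx, hfix]
      · rw [Pi.mulSingle_eq_of_ne hx, Pi.mulSingle_eq_of_ne]
        intro h
        apply hx
        rw [← smul_inv_smul (j g) x, h, hfix']
    rw [h2, h3, eq_mul_inv_iff_mul_eq] at h1
    exact h1.symm
  · intro γ w h1 h2
    have h3 := hw _ _ w h1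
    rw [hθ, hθ, h3, wr_apply, Pi.mulSingle_eq_same] at h2
    have h4 : γ.right⁻¹ • x0 = x0 := by
      by_contra hne
      rw [Pi.mulSingle_eq_of_ne hne, toAdd_one, ZMod.val_zero, pow_zero, toAdd_ofAdd,
        ZMod.val_one_eq_one_mod, ← pow_eq_pow_mod _ hζ.pow_eq_one, pow_one] at h2
      exact hζ.ne_one hp.one_lt h2.symm
    have h5 : γ.right ∈ j.range := by
      have h6 : ((γ.right⁻¹ * 1 : A) : A ⧸ j.range) = ((1 : A) : A ⧸ j.range) := h4
      rw [QuotientGroup.eq] at h6
      simpa using h6
    obtain ⟨g, hg⟩ := h5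
    refine ⟨γ.left, g, ?_⟩
    rw [MonoidHom.comp_apply, hg]
    exact (SemidirectProduct.inl_left_mul_inr_right γ).symm

end Pool.Agent.W2helper43.BD
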